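import Mathlib
import Pool.Agent.W939.SSE.Good

/-!
Existence of a family of constraints whose lift has no sparse cut with many vertices.
-/

set_option linter.unusedSectionVars false
set_option linter.unusedSimpArgs false
set_option linter.unusedVariables false

namespace Pool.Agent.W939.SC

open Finset Pool.Agent.W939.PC Pool.Agent.W939.SSE

section general

variable {Z : Type} [Fintype Z] [DecidableEq Z] {ι : Type} [Fintype ι] [DecidableEq ι]

theorem tail1 (Xf : Z → ℝ) {μ : ℝ} (hμ1 : μ ≤ 1) (hX0 : ∀ z, 0 ≤ Xf z)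
    (hXq : ∀ z, Xf z ≤ 1) (hmean : ∑ z, Xf z ≤ (Fintype.card Z : ℝ) * μ) {ε : ℝ} (hε : 0 < ε)
    (hε1 : ε ≤ 1) :
    ((univ.filter (fun τ : ι → Z =>
      (Fintype.card ι : ℝ) * (μ + ε) < ∑ i, Xf (τ i))).card : ℝ) ≤
      (Fintype.card (ι → Z) : ℝ) * Real.exp (-((Fintype.card ι : ℝ) * (ε ^ 2 / 4))) := by
  set M : ℝ := (Fintype.card ι : ℝ) with hM
  have hM0 : 0 ≤ M := Nat.cast_nonneg _
  set θ : ℝ := ε / 2 with hθ
  have hθ0 : 0 < θ := by positivity
  have hθ1 : θ ≤ 1 := by rw [hθ]; linarith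
  have hexpθ : Real.exp θ - 1 ≤ θ + θ ^ 2 := by
    have h2 := Real.abs_exp_sub_one_sub_id_le (x := θ) (by
      rw [abs_of_nonneg hθ0.le]; exact hθ1)
    have h3 := (abs_le.1 h2).2
    linarith
  have hexp0 : 0 ≤ Real.exp θ - 1 := by
    have := Real.add_one_le_exp θ; linarith
  have hpt : ∀ z, Real.exp (θ * Xf z) ≤ 1 + Xf z * (Real.exp θ - 1) := by
    intro z
    have := convexOn_exp.2 (Set.mem_univ (0 : ℝ)) (Set.mem_univ θ)
      (show 0 ≤ 1 - Xf z by linarith [hXq z]) (hX0 z) (by ring)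
    simp only [smul_eq_mul, mul_zero, zero_add, Real.exp_zero, mul_one] at this
    have h3 : Xf z * θ = θ * Xf z := by ring
    rw [h3] at this
    linarith
  have hone : ∑ z, Real.exp (θ * Xf z) ≤
      (Fintype.card Z : ℝ) * Real.exp (μ * θ + θ ^ 2) := by
    calc ∑ z, Real.exp (θ * Xf z) ≤ ∑ z, (1 + Xf z * (Real.exp θ - 1)) :=
          Finset.sum_le_sum fun z _ => hpt z
      _ = (Fintype.card Z : ℝ) + (∑ z, Xf z) * (Real.exp θ - 1) := by
          rw [Finset.sum_add_distrib, Finset.sum_const, Finset.card_univ, nsmul_eq_mul, mul_one,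
            Finset.sum_mul]
      _ ≤ (Fintype.card Z : ℝ) + ((Fintype.card Z : ℝ) * μ) * (Real.exp θ - 1) := by
          have := mul_le_mul_of_nonneg_right hmean hexp0
          linarith
      _ = (Fintype.card Z : ℝ) * (μ * (Real.exp θ - 1) + 1) := by ring
      _ ≤ (Fintype.card Z : ℝ) * ((μ * θ + θ ^ 2) + 1) := by
          apply mul_le_mul_of_nonneg_left _ (Nat.cast_nonneg _)
          have h0 : 0 ≤ θ ^ 2 := by positivity
          by_cases hμ0 : 0 ≤ μ
          · have h1 : μ * (Real.exp θ - 1) ≤ μ * (θ + θ ^ 2) := mul_le_mul_of_nonneg_left hexpθ hμ0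
            have h2 : μ * θ ^ 2 ≤ 1 * θ ^ 2 := mul_le_mul_of_nonneg_right hμ1 h0
            linarith
          · have h1 : θ ≤ Real.exp θ - 1 := by
              have := Real.add_one_le_exp θ; linarith
            have h2 : μ * (Real.exp θ - 1) ≤ μ * θ :=
              mul_le_mul_of_nonpos_left h1 (by linarith)
            linarith
      _ ≤ _ := mul_le_mul_of_nonneg_left (Real.add_one_le_exp _) (Nat.cast_nonneg _)
  have hall : ∑ τ : ι → Z, Real.exp (θ * ∑ i, Xf (τ i)) ≤
      (Fintype.card (ι → Z) : ℝ) * Real.exp (M * (μ * θ + θ ^ 2)) := by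
    have h1 : ∀ τ : ι → Z, Real.exp (θ * ∑ i, Xf (τ i)) =
        ∏ i, Real.exp (θ * Xf (τ i)) := by
      intro τ
      rw [← Real.exp_sum]
      congr 1
      rw [← Finset.mul_sum]
    rw [Finset.sum_congr rfl (fun τ _ => h1 τ), sum_pi (fun z => Real.exp (θ * Xf z))]
    refine (pow_le_pow_left₀ (Finset.sum_nonneg fun z _ => (Real.exp_pos _).le) hone _).trans
      (le_of_eq ?_)
    rw [mul_pow, ← Real.exp_nat_mul, Fintype.card_fun]
    push_cast
    rfl
  -- Markov
  set a : ℝ := Real.exp (θ * (M * (μ + ε))) with ha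
  have ha0 : 0 < a := Real.exp_pos _
  have hmk : ((univ.filter (fun τ : ι → Z => M * (μ + ε) < ∑ i, Xf (τ i))).card : ℝ) * a ≤
      ∑ τ : ι → Z, Real.exp (θ * ∑ i, Xf (τ i)) := by
    rw [← nsmul_eq_mul, ← Finset.sum_const]
    refine le_trans (Finset.sum_le_sum (fun τ hτ => ?_))
      (Finset.sum_le_sum_of_subset_of_nonneg (filter_subset _ _)
        (fun τ _ _ => (Real.exp_pos (θ * ∑ i, Xf (τ i))).le))
    rw [ha]
    apply Real.exp_le_exp.2
    exact mul_le_mul_of_nonneg_left (mem_filter.1 hτ).2.le hθ0.le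
  have h3 := hmk.trans hall
  rw [← le_div_iff₀ ha0] at h3
  refine h3.trans ?_
  rw [mul_div_assoc, ha, ← Real.exp_sub]
  apply mul_le_mul_of_nonneg_left _ (Nat.cast_nonneg _)
  apply Real.exp_le_exp.2
  have h4 : M * (μ * θ + θ ^ 2) - θ * (M * (μ + ε)) = -(M * (ε ^ 2 / 4)) := by
    rw [hθ]; ring
  rw [h4]

end general

variable {N m k : ℕ}

/-- Number of lifted edges which are cut by a set. -/
def Xcut {q : ℕ} (SL SR : Finset (Fin N × Fin q)) (z : Zt N q) : ℕ :=
  (univ.filter (fun a : Fin q => ¬ ((z.1.1, a) ∈ SL ↔ (z.1.2, z.2 a) ∈ SR))).card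

theorem Xcut_add {q : ℕ} (SL SR : Finset (Fin N × Fin q)) (z : Zt N q) :
    Xcut SL SR z + (Xin SL SR z + Xin SLᶜ SRᶜ z) = q := by
  unfold Xcut Xin
  rw [Finset.card_filter, Finset.card_filter, Finset.card_filter, ← Finset.sum_add_distrib,
    ← Finset.sum_add_distrib]
  have : ∀ a ∈ (univ : Finset (Fin q)), ((if ¬ ((z.1.1, a) ∈ SL ↔ (z.1.2, z.2 a) ∈ SR)
      then 1 else 0) + ((if (z.1.1, a) ∈ SL ∧ (z.1.2, z.2 a) ∈ SR then 1 else 0) +
      (if (z.1.1, a) ∈ SLᶜ ∧ (z.1.2, z.2 a) ∈ SRᶜ then 1 else 0))) = 1 := by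
    intro a _
    simp only [mem_compl]
    by_cases h1 : (z.1.1, a) ∈ SL <;> by_cases h2 : (z.1.2, z.2 a) ∈ SR <;> simp [h1, h2]
  rw [Finset.sum_congr rfl this]
  simp

theorem exists_good_sc {s Q μ : ℕ} {γ : ℝ} (hN : 0 < N) (hm : m ≤ μ * N)
    (hγ0 : 0 < γ) (hγ1 : γ ≤ 1)
    (hγ : γ * (4 * (μ * (Fintype.card (Fin k × Bool) : ℕ) *
      ((Fintype.card (Fin k × Bool) : ℕ) + 1) *
      Real.exp 1 ^ (Fintype.card (Fin k × Bool) + 1))) ≤ 1)
    (hs : ((Fintype.card (Fin k × Bool) * s : ℕ) : ℝ) ≤ γ ^ 4 * N)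
    (hM : m * k = Q ^ 2 * N) (hQ : 1440 ≤ Q) (hNQ : Q ^ 3 ≤ N) :
    ∃ τ : Fin m × Fin k → Zt N 2, Expd (om τ) s ∧
      (∀ SL SR : Finset (Fin N × Fin 2), SL.card + SR.card ≤ 2 * N →
        2 * N ≤ 3 * (SL.card + SR.card) →
        3 * Q ^ 2 * (SL.card + SR.card) ≤ 8 * ∑ i, Xcut SL SR (τ i)) ∧
      ∑ p, (SSE.cnt (fun z : Zt N 2 => z.1 = p) τ - 1) ≤ 60 * N * Q := by
  classical
  have hN' : (0 : ℝ) < N := by exact_mod_cast hN
  have hN1 : (1 : ℝ) ≤ N := by exact_mod_cast hN
  have hQ' : (1440 : ℝ) ≤ Q := by exact_mod_cast hQ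
  have hMι : (Fintype.card (Fin m × Fin k) : ℝ) = (Q : ℝ) ^ 2 * N := by
    rw [Fintype.card_prod, Fintype.card_fin, Fintype.card_fin, hM]; push_cast; ring
  set TT : ℝ := (Fintype.card (Fin m × Fin k → Zt N 2) : ℝ) with hTT
  have hT0 : 0 < TT := by
    rw [hTT]
    have : Nonempty (Fin N) := ⟨⟨0, hN⟩⟩
    exact_mod_cast Fintype.card_pos
  -- expansion
  have hb1 : ((univ.filter (fun τ : Fin m × Fin k → Zt N 2 => ¬ Expd (om τ) s)).card : ℝ) ≤
      1 / 3 * TT := by
    have h0 : (univ.filter (fun τ : Fin m × Fin k → Zt N 2 => ¬ Expd (om τ) s)).card =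
        (univ.filter (fun ω : Fin m → Fin k × Bool → Fin N => ¬ Expd ω s)).card *
          Fintype.card (Fin m × Fin k → Equiv.Perm (Fin 2)) := by
      convert card_bad_om (N := N) (q := 2) (m := m) (k := k) (fun ω => ¬ Expd ω s)
    rw [h0]
    have h1 := card_not_expanding (P := Fin k × Bool) (N := N) (m := m) (s := s) (μ := μ) (γ := γ)
      hN hm hγ0 hγ1 hγ hs
    have h2 : TT = (Fintype.card (Fin m → Fin k × Bool → Fin N) : ℝ) *
        (Fintype.card (Fin m × Fin k → Equiv.Perm (Fin 2)) : ℝ) := by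
      rw [hTT, Fintype.card_congr (splitEquiv (N := N) (q := 2) (m := m) (k := k)),
        Fintype.card_prod]
      push_cast; ring
    push_cast
    rw [h2, ← mul_assoc]
    apply mul_le_mul_of_nonneg_right _ (Nat.cast_nonneg _)
    convert h1
  -- few uncut edges
  let Yf : Finset (Fin N × Fin 2) × Finset (Fin N × Fin 2) → Zt N 2 → ℝ := fun S z =>
    ((Xin S.1 S.2 z + Xin S.1ᶜ S.2ᶜ z : ℕ) : ℝ) / 2
  let mu : Finset (Fin N × Fin 2) × Finset (Fin N × Fin 2) → ℝ := fun S =>
    1 - (((S.1.card : ℝ) + S.2.card) / (2 * N) - (S.1.card : ℝ) * S.2.card / (2 * N ^ 2))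
  let bad : Finset (Fin N × Fin 2) × Finset (Fin N × Fin 2) →
      Finset (Fin m × Fin k → Zt N 2) := fun S =>
    univ.filter (fun τ => (Fintype.card (Fin m × Fin k) : ℝ) * (mu S + 1 / 24) <
      ∑ i, Yf S (τ i))
  have hbad : ∀ S : Finset (Fin N × Fin 2) × Finset (Fin N × Fin 2),
      ((bad S).card : ℝ) ≤ TT * Real.exp (-(6 * N)) := by
    intro S
    have hc1 : (S.1.card : ℝ) ≤ 2 * N := by
      have h1 : S.1.card ≤ N * 2 := by
        refine (Finset.card_le_univ _).trans ?_
        simp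
      have : ((S.1.card : ℕ) : ℝ) ≤ ((N * 2 : ℕ) : ℝ) := by exact_mod_cast h1
      push_cast at this; linarith
    have hc2 : (S.2.card : ℝ) ≤ 2 * N := by
      have h1 : S.2.card ≤ N * 2 := by
        refine (Finset.card_le_univ _).trans ?_
        simp
      have : ((S.2.card : ℕ) : ℝ) ≤ ((N * 2 : ℕ) : ℝ) := by exact_mod_cast h1
      push_cast at this; linarith
    have hc1' : (0 : ℝ) ≤ S.1.card := Nat.cast_nonneg _
    have hc2' : (0 : ℝ) ≤ S.2.card := Nat.cast_nonneg _
    have h1 := tail1 (ι := Fin m × Fin k) (Yf S) (μ := mu S)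
      (by
        simp only [mu]
        have h2 : ((S.1.card : ℝ) + S.2.card) / (2 * N) -
            (S.1.card : ℝ) * S.2.card / (2 * N ^ 2) =
            (S.1.card * (2 * N - S.2.card) + S.2.card * (2 * N - S.1.card)) / (4 * N ^ 2) := by
          field_simp; ring
        have h3 : 0 ≤ (S.1.card * (2 * N - S.2.card) + S.2.card * (2 * N - S.1.card) : ℝ) /
            (4 * N ^ 2) := by
          apply div_nonneg _ (by positivity)
          have := mul_nonneg hc1' (show (0 : ℝ) ≤ 2 * N - S.2.card by linarith)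
          have := mul_nonneg hc2' (show (0 : ℝ) ≤ 2 * N - S.1.card by linarith)
          linarith
        rw [h2]; linarith)
      (fun z => by positivity)
      (fun z => by
        simp only [Yf]
        rw [div_le_one (by norm_num)]
        have h2 := Xcut_add S.1 S.2 z
        have h3 : Xin S.1 S.2 z + Xin S.1ᶜ S.2ᶜ z ≤ 2 := by omega
        exact_mod_cast h3)
      (by
        have h2 := sum_Xin S.1 S.2
        have h3 := sum_Xin S.1ᶜ S.2ᶜ
        have h2' : 2 * ∑ z : Zt N 2, (Xin S.1 S.2 z : ℝ) =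
            (S.1.card : ℝ) * S.2.card * (Fintype.card (Equiv.Perm (Fin 2)) : ℝ) := by
          exact_mod_cast h2
        have h3' : 2 * ∑ z : Zt N 2, (Xin S.1ᶜ S.2ᶜ z : ℝ) =
            ((S.1ᶜ).card : ℝ) * (S.2ᶜ).card * (Fintype.card (Equiv.Perm (Fin 2)) : ℝ) := by
          exact_mod_cast h3
        have e1 : ((S.1ᶜ).card : ℝ) = 2 * N - S.1.card := by
          have := Finset.card_add_card_compl S.1
          rw [Fintype.card_prod, Fintype.card_fin, Fintype.card_fin] at this
          have h4 : (S.1.card : ℝ) + ((S.1ᶜ).card : ℝ) = N * 2 := by exact_mod_cast this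
          linarith
        have e2 : ((S.2ᶜ).card : ℝ) = 2 * N - S.2.card := by
          have := Finset.card_add_card_compl S.2
          rw [Fintype.card_prod, Fintype.card_fin, Fintype.card_fin] at this
          have h4 : (S.2.card : ℝ) + ((S.2ᶜ).card : ℝ) = N * 2 := by exact_mod_cast this
          linarith
        rw [e1, e2] at h3'
        have e3 : ∑ z : Zt N 2, Yf S z =
            (2 * ∑ z : Zt N 2, (Xin S.1 S.2 z : ℝ) + 2 * ∑ z : Zt N 2, (Xin S.1ᶜ S.2ᶜ z : ℝ)) /
              4 := by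
          rw [← mul_add, ← Finset.sum_add_distrib, Finset.mul_sum, Finset.sum_div]
          apply Finset.sum_congr rfl
          intro z _
          simp only [Yf]
          push_cast
          ring
        rw [e3, h2', h3', card_Zt]
        apply le_of_eq
        simp only [mu]
        push_cast
        field_simp
        ring)
      (ε := 1 / 24) (by norm_num) (by norm_num)
    refine h1.trans ?_
    apply mul_le_mul_of_nonneg_left _ hT0.le
    apply Real.exp_le_exp.2
    apply neg_le_neg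
    rw [hMι]
    have h5 : (2073600 : ℝ) ≤ (Q : ℝ) ^ 2 := by
      have := pow_le_pow_left₀ (by norm_num) hQ' 2
      norm_num at this
      exact this
    have h6 : (2073600 : ℝ) * N ≤ (Q : ℝ) ^ 2 * N := mul_le_mul_of_nonneg_right h5 hN'.le
    have h7 : (Q : ℝ) ^ 2 * N * ((1 / 24) ^ 2 / 4) = (Q : ℝ) ^ 2 * N / 2304 := by ring
    rw [h7]
    linarith
  let badAll : Finset (Fin m × Fin k → Zt N 2) :=
    (univ : Finset (Finset (Fin N × Fin 2) × Finset (Fin N × Fin 2))).biUnion bad
  have hb2 : ((badAll).card : ℝ) ≤ 1 / 6 * TT := by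
    have h1 : (badAll.card : ℝ) ≤ ∑ S ∈ (univ : Finset (Finset (Fin N × Fin 2) ×
        Finset (Fin N × Fin 2))), ((bad S).card : ℝ) := by exact_mod_cast Finset.card_biUnion_le
    have h2 : ∑ S ∈ (univ : Finset (Finset (Fin N × Fin 2) ×
        Finset (Fin N × Fin 2))), ((bad S).card : ℝ) ≤ ∑ S ∈ (univ : Finset (Finset (Fin N × Fin 2) ×
        Finset (Fin N × Fin 2))), TT * Real.exp (-(6 * N)) :=
      Finset.sum_le_sum fun S _ => hbad S
    rw [Finset.sum_const, nsmul_eq_mul] at h2
    have h3 : (((univ : Finset (Finset (Fin N × Fin 2) × Finset (Fin N × Fin 2))).card : ℕ) : ℝ) ≤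
        Real.exp (4 * N) := by
      have h4 : ((univ : Finset (Finset (Fin N × Fin 2) × Finset (Fin N × Fin 2))).card) =
          2 ^ (4 * N) := by
        rw [Finset.card_univ, Fintype.card_prod, Fintype.card_finset, Fintype.card_prod,
          Fintype.card_fin, Fintype.card_fin, ← pow_add]
        congr 1
        ring
      rw [h4]
      have h6 : (2 : ℝ) ≤ Real.exp 1 := by
        have := Real.add_one_le_exp (1 : ℝ); linarith
      push_cast
      refine (pow_le_pow_left₀ (by norm_num) h6 _).trans (le_of_eq ?_)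
      rw [← Real.exp_nat_mul]
      congr 1
      push_cast
      ring
    have h7 : Real.exp (4 * N) * (TT * Real.exp (-(6 * N))) = TT * Real.exp (-(2 * N)) := by
      rw [mul_comm, mul_assoc, ← Real.exp_add]
      congr 2
      ring
    have h8 : Real.exp (-(2 * (N : ℝ))) ≤ 1 / 6 := by
      have h9 : Real.exp (-(2 * (N : ℝ))) ≤ Real.exp (-2) := Real.exp_le_exp.2 (by linarith)
      refine h9.trans ?_
      rw [Real.exp_neg, inv_le_comm₀ (Real.exp_pos _) (by norm_num)]
      have h10 : (2.7182818283 : ℝ) < Real.exp 1 := Real.exp_one_gt_d9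
      have h11 : Real.exp 2 = Real.exp 1 * Real.exp 1 := by rw [← Real.exp_add]; norm_num
      rw [h11]
      nlinarith
    calc (badAll.card : ℝ) ≤ _ := h1
      _ ≤ _ := h2
      _ ≤ Real.exp (4 * N) * (TT * Real.exp (-(6 * N))) :=
          mul_le_mul_of_nonneg_right h3 (by positivity)
      _ = TT * Real.exp (-(2 * N)) := h7
      _ ≤ TT * (1 / 6) := mul_le_mul_of_nonneg_left h8 hT0.le
      _ = 1 / 6 * TT := by ring
  -- repeated pairs
  let f : (Fin m × Fin k → Zt N 2) → ℕ := fun τ =>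
    ∑ p, (SSE.cnt (fun z : Zt N 2 => z.1 = p) τ - 1)
  have hf : ∑ τ, (f τ : ℝ) ≤ TT * (3 * Q * N) := by
    have e1 : ∑ τ, (f τ : ℝ) = ∑ p : Fin N × Fin N, ∑ τ : Fin m × Fin k → Zt N 2,
          ((SSE.cnt (fun z : Zt N 2 => z.1 = p) τ - 1 : ℕ) : ℝ) := by
      rw [Finset.sum_comm]
      apply Finset.sum_congr rfl
      intro τ _
      simp only [f]
      push_cast
      rfl
    have hQ3 : (Q : ℝ) ^ 3 ≤ N := by exact_mod_cast hNQ
    have hQN2 : (Q : ℝ) ^ 2 ≤ N := by
      have : (Q : ℝ) ^ 2 ≤ (Q : ℝ) ^ 3 := pow_le_pow_right₀ (by linarith) (by norm_num)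
      linarith
    have hQ0 : (0 : ℝ) < Q := by linarith
    have g3 : ∀ p : Fin N × Fin N, ∑ τ : Fin m × Fin k → Zt N 2,
        ((SSE.cnt (fun z : Zt N 2 => z.1 = p) τ - 1 : ℕ) : ℝ) ≤
          TT * (3 / ((N : ℝ) / (Q : ℝ) ^ 2) ^ 2) := fun p =>
      repeats _ (by rw [le_div_iff₀ (by positivity)]; linarith) (card_both hN p) (by
        rw [hMι]
        apply le_of_eq
        field_simp)
    rw [e1]
    have s3 := Finset.sum_le_sum (fun (p : Fin N × Fin N) (_ : p ∈ univ) => g3 p)
    rw [Finset.sum_const, Finset.card_univ, Fintype.card_prod, Fintype.card_fin,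
      nsmul_eq_mul] at s3
    have h4 : ((N * N : ℕ) : ℝ) * (TT * (3 / ((N : ℝ) / (Q : ℝ) ^ 2) ^ 2)) =
        TT * (3 * Q ^ 4) := by
      push_cast
      field_simp
    have h5 : TT * (3 * (Q : ℝ) ^ 4) ≤ TT * (3 * Q * N) := by
      apply mul_le_mul_of_nonneg_left _ hT0.le
      have : (Q : ℝ) * Q ^ 3 ≤ Q * N := mul_le_mul_of_nonneg_left hQ3 (by positivity)
      have h6 : 3 * (Q : ℝ) ^ 4 = 3 * (Q * Q ^ 3) := by ring
      rw [h6]
      linarith
    rw [h4] at s3
    linarith
  have hQ0 : (0 : ℝ) < Q := by linarith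
  -- combination
  by_contra hcon
  push Not at hcon
  have hcov : ∀ τ : Fin m × Fin k → Zt N 2, (1 : ℝ) ≤
      (if ¬ Expd (om τ) s then 1 else 0) + (if τ ∈ badAll then 1 else 0) +
        (f τ : ℝ) / (60 * N * Q) := by
    intro τ
    have hf0 : 0 ≤ (f τ : ℝ) / (60 * N * Q) := by positivity
    by_cases h1 : Expd (om τ) s
    · by_cases h2 : ∀ SL SR : Finset (Fin N × Fin 2), SL.card + SR.card ≤ 2 * N →
        2 * N ≤ 3 * (SL.card + SR.card) →
        3 * Q ^ 2 * (SL.card + SR.card) ≤ 8 * ∑ i, Xcut SL SR (τ i)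
      · have h3 := hcon τ h1 h2
        have h4 : (60 * N * Q : ℝ) ≤ (f τ : ℝ) := by
          have : 60 * N * Q ≤ f τ := h3.le
          exact_mod_cast this
        have h5 : 1 ≤ (f τ : ℝ) / (60 * N * Q) := by
          rw [le_div_iff₀ (by positivity)]; linarith
        split_ifs <;> linarith
      · push Not at h2
        obtain ⟨SL, SR, h3, h4, h5⟩ := h2
        have h6 : τ ∈ badAll := by
          simp only [badAll, mem_biUnion, mem_univ, true_and]
          refine ⟨(SL, SR), ?_⟩
          simp only [bad, mem_filter, mem_univ, true_and]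
          by_contra hle
          push Not at hle
          apply absurd h5
          push Not
          have h7 : ∑ i, (Xcut SL SR (τ i) : ℝ) = 2 * (Q ^ 2 * N) -
              2 * ∑ i, Yf (SL, SR) (τ i) := by
            have h8 : ∀ i, (Xcut SL SR (τ i) : ℝ) = 2 - 2 * Yf (SL, SR) (τ i) := by
              intro i
              have := Xcut_add SL SR (τ i)
              have h9 : (Xcut SL SR (τ i) : ℝ) +
                ((Xin SL SR (τ i) + Xin SLᶜ SRᶜ (τ i) : ℕ) : ℝ) = 2 := by exact_mod_cast this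
              simp only [Yf]
              linarith
            rw [Finset.sum_congr rfl (fun i _ => h8 i), Finset.sum_sub_distrib, Finset.sum_const,
              Finset.card_univ, nsmul_eq_mul, hMι, ← Finset.mul_sum]
            ring
          rw [hMι] at hle
          have h3' : (SL.card : ℝ) + SR.card ≤ 2 * N := by exact_mod_cast h3
          have h4' : 2 * (N : ℝ) ≤ 3 * (SL.card + SR.card) := by exact_mod_cast h4
          have hmu : mu (SL, SR) + 1 / 24 ≤ 1 - 3 / 16 * ((SL.card + SR.card : ℝ) / N) := by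
            simp only [mu]
            have g1 : (SL.card : ℝ) * SR.card ≤ ((SL.card : ℝ) + SR.card) ^ 2 / 4 := by
              nlinarith [sq_nonneg ((SL.card : ℝ) - SR.card)]
            have g2 : (SL.card : ℝ) * SR.card / (2 * N ^ 2) ≤
                ((SL.card : ℝ) + SR.card) / (4 * N) := by
              rw [div_le_div_iff₀ (by positivity) (by positivity)]
              have g3 : ((SL.card : ℝ) + SR.card) ^ 2 / 4 ≤ ((SL.card : ℝ) + SR.card) * N / 2 := by
                have : ((SL.card : ℝ) + SR.card) * ((SL.card : ℝ) + SR.card) ≤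
                    ((SL.card : ℝ) + SR.card) * (2 * N) :=
                  mul_le_mul_of_nonneg_left h3' (by positivity)
                have e : ((SL.card : ℝ) + SR.card) ^ 2 =
                  ((SL.card : ℝ) + SR.card) * ((SL.card : ℝ) + SR.card) := by ring
                rw [e]
                linarith
              have g4 : (SL.card : ℝ) * SR.card * (4 * N) ≤
                  ((SL.card : ℝ) + SR.card) * N / 2 * (4 * N) :=
                mul_le_mul_of_nonneg_right (g1.trans g3) (by positivity)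
              have g5 : ((SL.card : ℝ) + SR.card) * N / 2 * (4 * N) =
                  ((SL.card : ℝ) + SR.card) * (2 * N ^ 2) := by ring
              rw [g5] at g4
              exact g4
            have g6 : ((SL.card : ℝ) + SR.card) / (2 * N) =
                ((SL.card : ℝ) + SR.card) / N / 2 := by field_simp
            have g7 : ((SL.card : ℝ) + SR.card) / (4 * N) =
                ((SL.card : ℝ) + SR.card) / N / 4 := by field_simp
            have g8 : 2 / 3 ≤ ((SL.card : ℝ) + SR.card) / N := by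
              rw [le_div_iff₀ hN']; linarith
            rw [g6]
            rw [g7] at g2
            linarith
          have h10 : ∑ i, Yf (SL, SR) (τ i) ≤
              (Q : ℝ) ^ 2 * N * (1 - 3 / 16 * ((SL.card + SR.card : ℝ) / N)) :=
            hle.trans (mul_le_mul_of_nonneg_left hmu (by positivity))
          have h11 : (Q : ℝ) ^ 2 * N * (1 - 3 / 16 * ((SL.card + SR.card : ℝ) / N)) =
              (Q : ℝ) ^ 2 * N - 3 / 16 * ((Q : ℝ) ^ 2 * (SL.card + SR.card)) := by
            field_simp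
          rw [h11] at h10
          have h12 : 3 * (Q : ℝ) ^ 2 * (SL.card + SR.card) ≤
              8 * ∑ i, (Xcut SL SR (τ i) : ℝ) := by
            rw [h7]
            have e : 3 * (Q : ℝ) ^ 2 * (SL.card + SR.card) =
              3 * ((Q : ℝ) ^ 2 * (SL.card + SR.card)) := by ring
            rw [e]
            linarith
          exact_mod_cast h12
        rw [if_pos h6]
        split_ifs <;> linarith
    · rw [if_pos h1]
      split_ifs <;> linarith
  have hsum := Finset.sum_le_sum (fun (τ : Fin m × Fin k → Zt N 2) (_ : τ ∈ univ) => hcov τ)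
  rw [Finset.sum_const, Finset.card_univ, nsmul_eq_mul, mul_one, Finset.sum_add_distrib,
    Finset.sum_add_distrib, ← Finset.sum_filter, ← Finset.sum_filter, Finset.sum_const,
    Finset.sum_const, nsmul_eq_mul, nsmul_eq_mul, mul_one, mul_one, ← Finset.sum_div] at hsum
  have h6 : ((univ.filter (fun τ => τ ∈ badAll)).card : ℝ) ≤ 1 / 6 * TT := by
    have : univ.filter (fun τ => τ ∈ badAll) = badAll := by ext; simp
    rw [this]; exact hb2
  have h7 : (∑ τ, (f τ : ℝ)) / (60 * N * Q) ≤ 3 / 60 * TT := by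
    rw [div_le_iff₀ (by positivity)]
    refine hf.trans (le_of_eq ?_)
    ring
  linarith

end Pool.Agent.W939.SC
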