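import Mathlib
import Pool.Agent.W939.SSE.Graph
import Pool.Agent.W939.SC.Tail

/-!
Removal of a small part of the base vertices, so that no set of vertices has a sparse cut.
-/

set_option linter.unusedSectionVars false
set_option linter.unusedSimpArgs false
set_option linter.unusedVariables false

namespace Pool.Agent.W939.SC

open Finset Pool.Agent.W939.PC Pool.Agent.W939.SSE

variable {N : ℕ}

/-- Number of cut edges. -/
def cutE (E : Finset ((Fin N × Fin 2) × (Fin N × Fin 2))) (SL SR : Finset (Fin N × Fin 2)) : ℕ :=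
  (E.filter (fun e => ¬ (e.1 ∈ SL ↔ e.2 ∈ SR))).card

/-- Both copies of base vertices on the left. -/
def TL (B : Finset (Fin N ⊕ Fin N)) : Finset (Fin N × Fin 2) :=
  univ.filter (fun x => Sum.inl x.1 ∈ B)

/-- Both copies of base vertices on the right. -/
def TR (B : Finset (Fin N ⊕ Fin N)) : Finset (Fin N × Fin 2) :=
  univ.filter (fun x => Sum.inr x.1 ∈ B)

theorem card_T (B : Finset (Fin N ⊕ Fin N)) : (TL B).card + (TR B).card = 2 * B.card := by
  have h1 : TL B = B.toLeft ×ˢ (univ : Finset (Fin 2)) := by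
    ext x
    simp [TL]
  have h2 : TR B = B.toRight ×ˢ (univ : Finset (Fin 2)) := by
    ext x
    simp [TR]
  rw [h1, h2, card_product, card_product, card_univ, Fintype.card_fin]
  have := Finset.card_toLeft_add_card_toRight (u := B)
  omega

theorem sum_Xcut_le {ι : Type} [Fintype ι] [DecidableEq ι] (τ : ι → Zt N 2)
    (SL SR : Finset (Fin N × Fin 2)) :
    ∑ i, Xcut SL SR (τ i) ≤ cutE (E0 τ) SL SR +
      2 * ∑ p : Fin N × Fin N, (SSE.cnt (fun z : Zt N 2 => z.1 = p) τ - 1) := by
  classical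
  have h1 := card_E0 τ
  have h2 : ∑ i, Xcut SL SR (τ i) = ((univ : Finset (ι × Fin 2)).filter
      (fun x => ¬ ((lift τ x).1 ∈ SL ↔ (lift τ x).2 ∈ SR))).card := by
    rw [Finset.card_filter, Fintype.sum_prod_type]
    apply Finset.sum_congr rfl
    intro i _
    unfold Xcut
    rw [Finset.card_filter]
    rfl
  have h3 : ((E0 τ).filter (fun e => (e.1 ∈ SL ↔ e.2 ∈ SR))).card ≤
      ((univ : Finset (ι × Fin 2)).filter
        (fun x => ((lift τ x).1 ∈ SL ↔ (lift τ x).2 ∈ SR))).card := by
    have h4 : (E0 τ).filter (fun e => (e.1 ∈ SL ↔ e.2 ∈ SR)) ⊆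
        ((univ : Finset (ι × Fin 2)).filter
        (fun x => ((lift τ x).1 ∈ SL ↔ (lift τ x).2 ∈ SR))).image (lift τ) := by
      intro e he
      rw [mem_filter] at he
      obtain ⟨x, _, rfl⟩ := mem_image.1 he.1
      exact mem_image.2 ⟨x, mem_filter.2 ⟨mem_univ _, he.2⟩, rfl⟩
    exact (Finset.card_le_card h4).trans Finset.card_image_le
  have h5 := Finset.card_filter_add_card_filter_not (s := E0 τ)
    (fun e : (Fin N × Fin 2) × (Fin N × Fin 2) => (e.1 ∈ SL ↔ e.2 ∈ SR))
  have h6 := Finset.card_filter_add_card_filter_not (s := (univ : Finset (ι × Fin 2)))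
    (fun x => ((lift τ x).1 ∈ SL ↔ (lift τ x).2 ∈ SR))
  have h7 : (univ : Finset (ι × Fin 2)).card = 2 * Fintype.card ι := by
    rw [card_univ, Fintype.card_prod, Fintype.card_fin, Nat.mul_comm]
  rw [h7] at h6
  unfold cutE
  rw [h2]
  omega

/-- The other copies. -/
def flipE (e : (Fin N × Fin 2) × (Fin N × Fin 2)) : (Fin N × Fin 2) × (Fin N × Fin 2) :=
  ((e.1.1, Fin.rev e.1.2), (e.2.1, Fin.rev e.2.2))

theorem flipE_flipE (e : (Fin N × Fin 2) × (Fin N × Fin 2)) : flipE (flipE e) = e := by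
  simp [flipE]

theorem rev_of_ne {a b : Fin 2} (h : b ≠ a) : b = Fin.rev a := by
  revert a b; decide

theorem rev_ne_self (a : Fin 2) : Fin.rev a ≠ a := by
  revert a; decide

theorem flip_E0 {ι : Type} [Fintype ι] [DecidableEq ι] (τ : ι → Zt N 2) :
    ∀ e ∈ E0 τ, flipE e ∈ E0 τ := by
  intro e he
  obtain ⟨⟨i, a⟩, _, rfl⟩ := mem_image.1 he
  refine mem_image.2 ⟨(i, Fin.rev a), mem_univ _, ?_⟩
  simp only [lift, flipE]
  have h1 : (τ i).2 (Fin.rev a) = Fin.rev ((τ i).2 a) := by
    apply rev_of_ne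
    intro h
    exact rev_ne_self a ((τ i).2.injective h)
  rw [h1]

theorem prune {Q : ℕ} (hQ : 0 < Q) (hN : 0 < N) (E : Finset ((Fin N × Fin 2) × (Fin N × Fin 2)))
    (hsym : ∀ e ∈ E, flipE e ∈ E)
    (hlarge : ∀ SL SR : Finset (Fin N × Fin 2), SL.card + SR.card ≤ 2 * N →
      2 * N ≤ 3 * (SL.card + SR.card) → Q ^ 2 * (SL.card + SR.card) ≤ 4 * cutE E SL SR) :
    ∃ Bst : Finset (Fin N ⊕ Fin N), 3 * Bst.card < N ∧
      ∀ SL SR : Finset (Fin N × Fin 2), 0 < SL.card + SR.card → SL.card + SR.card ≤ 2 * N →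
        (∀ x ∈ SL, Sum.inl x.1 ∉ Bst) → (∀ x ∈ SR, Sum.inr x.1 ∉ Bst) →
        Q ^ 2 * (SL.card + SR.card) ≤
          16 * cutE (E.filter (fun e => Sum.inl e.1.1 ∉ Bst ∧ Sum.inr e.2.1 ∉ Bst)) SL SR := by
  classical
  have hQ2 : 0 < Q ^ 2 := by positivity
  let good : Finset (Finset (Fin N ⊕ Fin N)) := univ.filter (fun B =>
    B.card ≤ N ∧ 8 * cutE E (TL B) (TR B) ≤ Q ^ 2 * (2 * B.card))
  have hne : good.Nonempty := by
    refine ⟨∅, ?_⟩
    simp only [good, mem_filter, mem_univ, true_and]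
    constructor
    · simp
    · have : cutE E (TL ∅) (TR ∅) = 0 := by
        unfold cutE
        rw [Finset.card_eq_zero, Finset.filter_eq_empty_iff]
        intro e _
        simp [TL, TR]
      rw [this]; simp
  obtain ⟨Bst, hBst, hmax⟩ := Finset.exists_max_image good (fun B => B.card) hne
  have hB0 : Bst.card ≤ N ∧ 8 * cutE E (TL Bst) (TR Bst) ≤ Q ^ 2 * (2 * Bst.card) := by
    simpa only [good, mem_filter, mem_univ, true_and] using hBst
  obtain ⟨hB1, hB2⟩ := hB0
  have hT := card_T Bst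
  have hsmall : 3 * Bst.card < N := by
    by_contra hcon
    push Not at hcon
    have h1 := hlarge (TL Bst) (TR Bst) (by omega) (by omega)
    rw [hT] at h1
    have h2 : Q ^ 2 * (2 * Bst.card) ≤ 0 := by omega
    have h3 : 0 < Bst.card := by omega
    have h4 : 0 < Q ^ 2 * (2 * Bst.card) := Nat.mul_pos hQ2 (by omega)
    omega
  refine ⟨Bst, hsmall, ?_⟩
  intro SL SR hpos hle hSL hSR
  by_contra hcon
  push Not at hcon
  set E' := E.filter (fun e => Sum.inl e.1.1 ∉ Bst ∧ Sum.inr e.2.1 ∉ Bst) with hE'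
  set B : Finset (Fin N ⊕ Fin N) := SL.image (fun x => Sum.inl x.1) ∪
    SR.image (fun x => Sum.inr x.1) with hB
  have memL : ∀ u, Sum.inl u ∈ B ↔ ∃ a, (u, a) ∈ SL := by
    intro u
    simp [hB]
  have memR : ∀ w, Sum.inr w ∈ B ↔ ∃ a, (w, a) ∈ SR := by
    intro w
    simp [hB]
  have hBs : B.card ≤ SL.card + SR.card :=
    (Finset.card_union_le _ _).trans (Nat.add_le_add Finset.card_image_le Finset.card_image_le)
  have hsB : SL.card + SR.card ≤ 2 * B.card := by
    rw [← card_T B]
    apply Nat.add_le_add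
    · apply Finset.card_le_card
      intro x hx
      simp only [TL, mem_filter, mem_univ, true_and]
      exact (memL x.1).2 ⟨x.2, hx⟩
    · apply Finset.card_le_card
      intro x hx
      simp only [TR, mem_filter, mem_univ, true_and]
      exact (memR x.1).2 ⟨x.2, hx⟩
  have hdisj : Disjoint B Bst := by
    rw [Finset.disjoint_left]
    rintro (u | w) h h'
    · obtain ⟨a, ha⟩ := (memL u).1 h
      exact hSL _ ha h'
    · obtain ⟨a, ha⟩ := (memR w).1 h
      exact hSR _ ha h'
  have hcardU : (B ∪ Bst).card = B.card + Bst.card := Finset.card_union_of_disjoint hdisj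
  have hBpos : 0 < B.card := by omega
  -- edges cut by both copies of `B`
  have hc1 : cutE E' (TL B) (TR B) ≤ 2 * cutE E' SL SR := by
    unfold cutE
    have hsub : E'.filter (fun e => ¬ (e.1 ∈ TL B ↔ e.2 ∈ TR B)) ⊆
        E'.filter (fun e => ¬ (e.1 ∈ SL ↔ e.2 ∈ SR)) ∪
          (E'.filter (fun e => ¬ (e.1 ∈ SL ↔ e.2 ∈ SR))).image flipE := by
      intro e he
      rw [mem_filter] at he
      obtain ⟨he1, he2⟩ := he
      have hfl : flipE e ∈ E' := by
        rw [hE', mem_filter] at he1 ⊢
        exact ⟨hsym e he1.1, he1.2⟩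
      simp only [TL, TR, mem_filter, mem_univ, true_and, memL, memR] at he2
      rw [mem_union, mem_filter, mem_image]
      by_cases h1 : ∃ a, (e.1.1, a) ∈ SL
      · have h2 : ¬ ∃ a, (e.2.1, a) ∈ SR := fun h2 => he2 ⟨fun _ => h2, fun _ => h1⟩
        obtain ⟨a, ha⟩ := h1
        by_cases h3 : a = e.1.2
        · left
          refine ⟨he1, ?_⟩
          intro h4
          apply h2
          exact ⟨e.2.2, h4.1 (by rw [h3] at ha; exact ha)⟩
        · right
          refine ⟨flipE e, ?_, flipE_flipE e⟩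
          rw [mem_filter]
          refine ⟨hfl, ?_⟩
          intro h4
          apply h2
          have h5 : (flipE e).1 ∈ SL := by
            simp only [flipE]
            rw [← rev_of_ne h3]
            exact ha
          exact ⟨_, h4.1 h5⟩
      · have h2 : ∃ a, (e.2.1, a) ∈ SR := by
          by_contra h2
          exact he2 ⟨fun h => absurd h h1, fun h => absurd h h2⟩
        obtain ⟨a, ha⟩ := h2
        by_cases h3 : a = e.2.2
        · left
          refine ⟨he1, ?_⟩
          intro h4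
          apply h1
          exact ⟨e.1.2, h4.2 (by rw [h3] at ha; exact ha)⟩
        · right
          refine ⟨flipE e, ?_, flipE_flipE e⟩
          rw [mem_filter]
          refine ⟨hfl, ?_⟩
          intro h4
          apply h1
          have h5 : (flipE e).2 ∈ SR := by
            simp only [flipE]
            rw [← rev_of_ne h3]
            exact ha
          exact ⟨_, h4.2 h5⟩
    refine (Finset.card_le_card hsub).trans ((Finset.card_union_le _ _).trans ?_)
    have := Finset.card_image_le (s := E'.filter (fun e => ¬ (e.1 ∈ SL ↔ e.2 ∈ SR)))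
      (f := flipE)
    omega
  have hc2 : cutE E (TL (B ∪ Bst)) (TR (B ∪ Bst)) ≤
      cutE E' (TL B) (TR B) + cutE E (TL Bst) (TR Bst) := by
    unfold cutE
    refine (Finset.card_le_card ?_).trans (Finset.card_union_le _ _)
    intro e he
    rw [mem_filter] at he
    obtain ⟨he1, he2⟩ := he
    simp only [TL, TR, mem_filter, mem_univ, true_and, mem_union, hE'] at he2 ⊢
    tauto
  have hc3 : cutE E SL SR ≤ cutE E' SL SR + cutE E (TL Bst) (TR Bst) := by
    unfold cutE
    refine (Finset.card_le_card ?_).trans (Finset.card_union_le _ _)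
    intro e he
    rw [mem_filter] at he
    obtain ⟨he1, he2⟩ := he
    simp only [TL, TR, mem_filter, mem_univ, true_and, mem_union, hE'] at he2 ⊢
    have h1 := hSL e.1
    have h2 := hSR e.2
    tauto
  have hm1 : Q ^ 2 * (SL.card + SR.card) ≤ Q ^ 2 * (2 * B.card) := Nat.mul_le_mul_left _ hsB
  have hbig : N < B.card + Bst.card := by
    by_contra hle2
    push Not at hle2
    have h1 : B ∪ Bst ∈ good := by
      simp only [good, mem_filter, mem_univ, true_and]
      refine ⟨by omega, ?_⟩
      rw [hcardU, Nat.mul_add, Nat.mul_add]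
      omega
    have h2 : (B ∪ Bst).card ≤ Bst.card := hmax _ h1
    omega
  have h3 := hlarge SL SR hle (by omega)
  have hm2 : Q ^ 2 * (2 * Bst.card) ≤ Q ^ 2 * (SL.card + SR.card) :=
    Nat.mul_le_mul_left _ (by omega)
  omega

end Pool.Agent.W939.SC
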