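import Mathlib
import Pool.Agent.W939.SSE.Verts

/-!
Numbering of the copies of a part of the base vertices.
-/

set_option linter.unusedSectionVars false
set_option linter.unusedSimpArgs false
set_option linter.unusedVariables false

namespace Pool.Agent.W939.SC

open Finset Pool.Agent.W939.PC Pool.Agent.W939.SSE

variable {N q K : ℕ}

/-- The vertex with a number. -/
def vn (v0 : Fin K → Fin N ⊕ Fin N) (l : Fin (K * q)) : (Fin N ⊕ Fin N) × Fin q :=
  (v0 (finProdFinEquiv.symm l).1, (finProdFinEquiv.symm l).2)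

theorem vn_inj {v0 : Fin K → Fin N ⊕ Fin N} (hv : Function.Injective v0)
    {l l' : Fin (K * q)} (h : vn v0 l = vn v0 l') : l = l' := by
  simp only [vn, Prod.mk.injEq] at h
  exact finProdFinEquiv.symm.injective (Prod.ext (hv h.1) h.2)

theorem exists_vn (v0 : Fin K → Fin N ⊕ Fin N) (i : Fin K) (a : Fin q) :
    ∃ l, vn v0 l = (v0 i, a) :=
  ⟨finProdFinEquiv (i, a), by simp [vn]⟩

/-- The vertex is in the set of a labeling. -/
def MemL (v0 : Fin K → Fin N ⊕ Fin N) (l : Fin (K * q)) (y : Fin N ⊕ Fin N → Fin q) : Prop :=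
  y (vn v0 l).1 = (vn v0 l).2

instance (v0 : Fin K → Fin N ⊕ Fin N) (l : Fin (K * q)) (y : Fin N ⊕ Fin N → Fin q) :
    Decidable (MemL v0 l y) := by
  unfold MemL; infer_instance

/-- The cluster at a position. -/
def dmL (q : ℕ) (v0 : Fin K → Fin N ⊕ Fin N) (i : ℕ) : Finset (Fin N ⊕ Fin N) :=
  if h : i / q < K then {v0 ⟨i / q, h⟩} else ∅

theorem card_dmL (v0 : Fin K → Fin N ⊕ Fin N) (i : ℕ) : (dmL q v0 i).card ≤ 1 := by
  unfold dmL; split_ifs <;> simp

theorem vn_fst (v0 : Fin K → Fin N ⊕ Fin N) (l : Fin (K * q)) (h : (l : ℕ) / q < K) :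
    (vn v0 l).1 = v0 ⟨(l : ℕ) / q, h⟩ := by
  unfold vn
  simp only
  congr 1

theorem vn_snd (v0 : Fin K → Fin N ⊕ Fin N) (l : Fin (K * q)) :
    (((vn v0 l).2 : Fin q) : ℕ) = (l : ℕ) % q := by
  unfold vn
  simp

/-- The number of set vertices below a position. -/
theorem cb_memL (v0 : Fin K → Fin N ⊕ Fin N) (hq : 0 < q) (y : Fin N ⊕ Fin N → Fin q) (i : ℕ)
    (hi : i ≤ K * q) :
    cb (fun l => MemL v0 l y) i = i / q + (if ∃ h : i / q < K,
      ((y (v0 ⟨i / q, h⟩) : Fin q) : ℕ) < i % q then 1 else 0) := by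
  induction i with
  | zero => simp [cb_zero]
  | succ i ih =>
    have hi' : i < K * q := hi
    have hd : i / q < K := by rw [Nat.div_lt_iff_lt_mul hq]; exact hi'
    have h1 := cb_succ (fun l : Fin (K * q) => MemL v0 l y) ⟨i, hi'⟩
    simp only at h1
    rw [h1, ih hi'.le]
    have hm : MemL v0 (⟨i, hi'⟩ : Fin (K * q)) y ↔
        ((y (v0 ⟨i / q, hd⟩) : Fin q) : ℕ) = i % q := by
      unfold MemL
      rw [vn_fst v0 ⟨i, hi'⟩ hd, ← vn_snd v0 (⟨i, hi'⟩ : Fin (K * q))]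
      exact Fin.ext_iff
    have hex : (∃ h : i / q < K,
        ((y (v0 ⟨i / q, h⟩) : Fin q) : ℕ) < i % q) ↔
        ((y (v0 ⟨i / q, hd⟩) : Fin q) : ℕ) < i % q :=
      ⟨fun ⟨_, h⟩ => h, fun h => ⟨hd, h⟩⟩
    have hyq := (y (v0 ⟨i / q, hd⟩)).2
    have hmod := Nat.mod_lt i hq
    have e1 : (if ∃ h : i / q < K,
        ((y (v0 ⟨i / q, h⟩) : Fin q) : ℕ) < i % q then 1 else 0) =
        if ((y (v0 ⟨i / q, hd⟩) : Fin q) : ℕ) < i % q then 1 else 0 := by
      simp only [hex]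
    have e2 : (if MemL v0 (⟨i, hi'⟩ : Fin (K * q)) y then 1 else 0) =
        if ((y (v0 ⟨i / q, hd⟩) : Fin q) : ℕ) = i % q then 1 else 0 := by
      simp only [hm]
    rw [e1, e2]
    rcases div_succ_cases (i := i) hq with h2 | ⟨h2, h3⟩
    · have h4 : (i + 1) % q = i % q + 1 := by
        have h5 := Nat.div_add_mod i q
        have h6 := Nat.div_add_mod (i + 1) q
        rw [h2] at h6
        omega
      have hex2 : (∃ h : (i + 1) / q < K,
          ((y (v0 ⟨(i + 1) / q, h⟩) : Fin q) : ℕ) < (i + 1) % q) ↔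
          ((y (v0 ⟨i / q, hd⟩) : Fin q) : ℕ) < i % q + 1 := by
        simp only [h2, h4]
        exact ⟨fun ⟨_, h⟩ => h, fun h => ⟨hd, h⟩⟩
      have e3 : (if ∃ h : (i + 1) / q < K,
          ((y (v0 ⟨(i + 1) / q, h⟩) : Fin q) : ℕ) < (i + 1) % q then 1 else 0) =
          if ((y (v0 ⟨i / q, hd⟩) : Fin q) : ℕ) < i % q + 1 then 1 else 0 := by
        simp only [hex2]
      rw [e3, h2]
      split_ifs <;> omega
    · have h4 : (i + 1) % q = 0 := by
        have h6 := Nat.div_add_mod (i + 1) q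
        omega
      have h5 : i % q + 1 = q := by
        have h5 := Nat.div_add_mod i q
        rw [h2, Nat.mul_add, Nat.mul_one] at h3
        omega
      have hex2 : ¬ (∃ h : (i + 1) / q < K,
          ((y (v0 ⟨(i + 1) / q, h⟩) : Fin q) : ℕ) < (i + 1) % q) := by
        rintro ⟨_, h⟩
        omega
      have e3 : (if ∃ h : (i + 1) / q < K,
          ((y (v0 ⟨(i + 1) / q, h⟩) : Fin q) : ℕ) < (i + 1) % q then 1 else 0) =
          0 := if_neg hex2
      rw [e3, h2]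
      split_ifs <;> omega

theorem cb_memL_total (v0 : Fin K → Fin N ⊕ Fin N) (hq : 0 < q) (y : Fin N ⊕ Fin N → Fin q) :
    cb (fun l => MemL v0 l y) (K * q) = K := by
  rw [cb_memL v0 hq y _ le_rfl]
  have h0 : K * q / q = K := Nat.mul_div_cancel _ hq
  have hne : ¬ (∃ h : K * q / q < K,
      ((y (v0 ⟨K * q / q, h⟩) : Fin q) : ℕ) < K * q % q) := by
    rintro ⟨h, _⟩
    omega
  have e : (if ∃ h : K * q / q < K,
      ((y (v0 ⟨K * q / q, h⟩) : Fin q) : ℕ) < K * q % q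
      then 1 else 0) = 0 := if_neg hne
  rw [e, h0, Nat.add_zero]

/-- Bounds for the number of set vertices below a position. -/
theorem cb_memL_bounds (v0 : Fin K → Fin N ⊕ Fin N) (hq : 0 < q) (y : Fin N ⊕ Fin N → Fin q)
    (i : ℕ) (hi : i ≤ K * q) :
    i / q ≤ cb (fun l => MemL v0 l y) i ∧ cb (fun l => MemL v0 l y) i ≤ i / q + 1 := by
  rw [cb_memL v0 hq y i hi]
  split_ifs <;> omega

theorem memL_local (v0 : Fin K → Fin N ⊕ Fin N) (l : Fin (K * q)) {y y' : Fin N ⊕ Fin N → Fin q}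
    (h : ∀ v ∈ dmL q v0 l, y v = y' v) : MemL v0 l y ↔ MemL v0 l y' := by
  unfold MemL
  have hq : 0 < q := by
    rcases Nat.eq_zero_or_pos q with h | h
    · exfalso
      have h1 := l.2
      have h2 : K * q = 0 := by rw [h, Nat.mul_zero]
      omega
    · exact h
  have hd : (l : ℕ) / q < K := by rw [Nat.div_lt_iff_lt_mul hq]; exact l.2
  have : (vn v0 l).1 ∈ dmL q v0 l := by
    unfold dmL
    rw [dif_pos hd, vn_fst v0 l hd]
    simp
  rw [h _ this]

theorem cb_local (v0 : Fin K → Fin N ⊕ Fin N) (hq : 0 < q) (i : ℕ)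
    {y y' : Fin N ⊕ Fin N → Fin q} (hi : i ≤ K * q) (h : ∀ v ∈ dmL q v0 i, y v = y' v) :
    cb (fun l => MemL v0 l y) i = cb (fun l => MemL v0 l y') i := by
  rw [cb_memL v0 hq y i hi, cb_memL v0 hq y' i hi]
  congr 1
  have : (∃ h : i / q < K, ((y (v0 ⟨i / q, h⟩) : Fin q) : ℕ) < i % q) ↔
      (∃ h : i / q < K, ((y' (v0 ⟨i / q, h⟩) : Fin q) : ℕ) < i % q) := by
    constructor
    · rintro ⟨h1, h2⟩
      refine ⟨h1, ?_⟩
      rw [← h _ (by unfold dmL; rw [dif_pos h1]; simp)]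
      exact h2
    · rintro ⟨h1, h2⟩
      refine ⟨h1, ?_⟩
      rw [h _ (by unfold dmL; rw [dif_pos h1]; simp)]
      exact h2
  simp only [this]

end Pool.Agent.W939.SC
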