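import Mathlib
import Pool.Agent.W939.SSE.Asm
import Pool.Agent.W939.SC.Prune
import Pool.Agent.W939.SC.Verts

/-!
Assembly of the lower bound for sparsest cut with explicit parameters.
-/

set_option linter.unusedSectionVars false
set_option linter.unusedSimpArgs false
set_option linter.unusedVariables false

namespace Pool.Agent.W939.SC

open Finset Pool.Agent.W939.PC Pool.Agent.W939.SSE

/-- The graph of a list of edges. -/
def gphE {n m : ℕ} (ed : Fin m → Fin n × Fin n) (h : ∀ i, (ed i).1 ≠ (ed i).2) :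
    SimpleGraph (Fin n) where
  Adj x y := ∃ i, ed i = (x, y) ∨ ed i = (y, x)
  symm := ⟨fun x y ⟨i, hi⟩ => ⟨i, hi.symm⟩⟩
  loopless := ⟨fun x ⟨i, hi⟩ => by
    have h1 : ed i = (x, x) := by rcases hi with h | h <;> exact h
    apply h i
    rw [h1]⟩

section local_structure

variable {N mb k K : ℕ} {τ : Fin mb × Fin k → Zt N 2}
  {E : Finset ((Fin N × Fin 2) × (Fin N × Fin 2))}
  {f : Fin E.card → (Fin N × Fin 2) × (Fin N × Fin 2)} {v0 : Fin K → Fin N ⊕ Fin N}
  {ed : Fin E.card → Fin (K * 2) × Fin (K * 2)}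

theorem memL_fst (h1 : ∀ l, vn v0 (ed l).1 = (Sum.inl (f l).1.1, (f l).1.2)) (l : Fin E.card)
    (y : Fin N ⊕ Fin N → Fin 2) :
    MemL v0 (ed l).1 y ↔ y (Sum.inl (f l).1.1) = (f l).1.2 := by
  unfold MemL
  rw [h1]

theorem memL_snd (h2 : ∀ l, vn v0 (ed l).2 = (Sum.inr (f l).2.1, (f l).2.2)) (l : Fin E.card)
    (y : Fin N ⊕ Fin N → Fin 2) :
    MemL v0 (ed l).2 y ↔ y (Sum.inr (f l).2.1) = (f l).2.2 := by
  unfold MemL
  rw [h2]

theorem cut_iff (h1 : ∀ l, vn v0 (ed l).1 = (Sum.inl (f l).1.1, (f l).1.2))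
    (h2 : ∀ l, vn v0 (ed l).2 = (Sum.inr (f l).2.1, (f l).2.2)) (l : Fin E.card)
    (y : Fin N ⊕ Fin N → Fin 2) :
    Cut ed (fun l (y : Fin N ⊕ Fin N → Fin 2) => MemL v0 l y) l y ↔
      Cut (fun l => en (f l)) (fun l (y : Fin N ⊕ Fin N → Fin 2) => SSE.MemL l y) l y := by
  unfold Cut
  simp only [memL_fst h1, memL_snd h2, en, memL_nv]

theorem cwE_eq (h1 : ∀ l, vn v0 (ed l).1 = (Sum.inl (f l).1.1, (f l).1.2))
    (h2 : ∀ l, vn v0 (ed l).2 = (Sum.inr (f l).2.1, (f l).2.2)) (i : ℕ)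
    (y : Fin N ⊕ Fin N → Fin 2) :
    cwE ed (fun l (y : Fin N ⊕ Fin N → Fin 2) => MemL v0 l y) (kap τ E f) i y =
      cwE (fun l => en (f l)) (fun l (y : Fin N ⊕ Fin N → Fin 2) => SSE.MemL l y)
        (kap τ E f) i y := by
  unfold cwE
  congr 1
  apply Finset.filter_congr
  intro l _
  rw [cut_iff h1 h2 l y]

theorem locE_sc (hmem : ∀ e, e ∈ E ↔ ∃ i, f i = e)
    (h1 : ∀ l, vn v0 (ed l).1 = (Sum.inl (f l).1.1, (f l).1.2))
    (h2 : ∀ l, vn v0 (ed l).2 = (Sum.inr (f l).2.1, (f l).2.2)) :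
    LocE ed (fun l (y : Fin N ⊕ Fin N → Fin 2) => MemL v0 l y) (kap τ E f)
      (dmL 2 v0) (dkL τ E) where
  mem := fun l y y' h => memL_local v0 l h
  cnt := fun i y y' hi h => cb_local v0 (by norm_num) i hi h
  fst := by
    intro l y y' h
    rw [memL_fst h1, memL_fst h1, h _ (ends_mem hmem l).1]
  snd := by
    intro l y y' h
    rw [memL_snd h2, memL_snd h2, h _ (ends_mem hmem l).2]

theorem satE_sc (hinj : Function.Injective f) (hmem : ∀ e, e ∈ E ↔ ∃ i, f i = e)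
    (h1 : ∀ l, vn v0 (ed l).1 = (Sum.inl (f l).1.1, (f l).1.2))
    (h2 : ∀ l, vn v0 (ed l).2 = (Sum.inr (f l).2.1, (f l).2.2)) (b : Fin mb)
    (y : Fin N ⊕ Fin N → Fin 2) (hs : satU (ug τ) id b y) :
    (univ.filter (fun l : Fin E.card => kap τ E f l = b ∧
      Cut ed (fun l (y : Fin N ⊕ Fin N → Fin 2) => MemL v0 l y) l y)).card ≤ 4 := by
  refine le_trans (le_of_eq ?_) (satE hinj hmem b y hs)
  congr 1
  apply Finset.filter_congr
  intro l _
  rw [cut_iff h1 h2 l y]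

end local_structure

section parts

variable {N K : ℕ} {v0 : Fin K → Fin N ⊕ Fin N}

/-- The left part of a set. -/
def lpt (v0 : Fin K → Fin N ⊕ Fin N) (S : Finset (Fin (K * 2))) : Finset (Fin N × Fin 2) :=
  univ.filter (fun x => ∃ l ∈ S, vn v0 l = (Sum.inl x.1, x.2))

/-- The right part of a set. -/
def rpt (v0 : Fin K → Fin N ⊕ Fin N) (S : Finset (Fin (K * 2))) : Finset (Fin N × Fin 2) :=
  univ.filter (fun x => ∃ l ∈ S, vn v0 l = (Sum.inr x.1, x.2))

theorem card_pts (hv : Function.Injective v0) (S : Finset (Fin (K * 2))) :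
    (lpt v0 S).card + (rpt v0 S).card = S.card := by
  classical
  have h1 : S.image (vn v0) = (lpt v0 S).image (fun x => ((Sum.inl x.1 : Fin N ⊕ Fin N), x.2)) ∪
      (rpt v0 S).image (fun x => ((Sum.inr x.1 : Fin N ⊕ Fin N), x.2)) := by
    ext x
    simp only [lpt, rpt, mem_union, mem_image, mem_filter, mem_univ, true_and]
    constructor
    · rintro ⟨l, hl, rfl⟩
      rcases h : vn v0 l with ⟨u | w, a⟩
      · exact Or.inl ⟨(u, a), ⟨l, hl, h⟩, rfl⟩
      · exact Or.inr ⟨(w, a), ⟨l, hl, h⟩, rfl⟩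
    · rintro (⟨y, ⟨l, hl, h⟩, rfl⟩ | ⟨y, ⟨l, hl, h⟩, rfl⟩)
      · exact ⟨l, hl, h⟩
      · exact ⟨l, hl, h⟩
  have h2 : Disjoint ((lpt v0 S).image (fun x => ((Sum.inl x.1 : Fin N ⊕ Fin N), x.2)))
      ((rpt v0 S).image (fun x => ((Sum.inr x.1 : Fin N ⊕ Fin N), x.2))) := by
    rw [Finset.disjoint_left]
    intro x hx hx'
    obtain ⟨y, _, rfl⟩ := mem_image.1 hx
    obtain ⟨y', _, h⟩ := mem_image.1 hx'
    simp at h
  have h3 := congrArg Finset.card h1
  rw [Finset.card_union_of_disjoint h2,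
    Finset.card_image_of_injective _ (fun l l' h => vn_inj hv h),
    Finset.card_image_of_injective, Finset.card_image_of_injective] at h3
  · exact h3.symm
  · intro x x' h
    simp only [Prod.mk.injEq, Sum.inr.injEq] at h
    exact Prod.ext h.1 h.2
  · intro x x' h
    simp only [Prod.mk.injEq, Sum.inl.injEq] at h
    exact Prod.ext h.1 h.2

end parts

theorem core_sc {N mb k Q s e μ nn : ℕ} {γ : ℝ} (hN : 0 < N) (hk : 2 ≤ k)
    (hm : mb ≤ μ * N) (hγ0 : 0 < γ) (hγ1 : γ ≤ 1)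
    (hγ : γ * (4 * (μ * ((k * 2 : ℕ) : ℝ) * (((k * 2 : ℕ) : ℝ) + 1) *
      Real.exp 1 ^ (k * 2 + 1))) ≤ 1)
    (hs : ((k * 2 * s : ℕ) : ℝ) ≤ γ ^ 4 * N) (hM : mb * k = Q ^ 2 * N) (hQ : 1440 ≤ Q)
    (hNQ : Q ^ 3 ≤ N)
    (he1 : 2 ≤ e) (hes : 4 * (4 * e * (2 * k) + 2 * k) ≤ s) (hen : 2 * e ≤ nn)
    (hnn : 2 * ((2 * N) * 2 + (((2 * N) * 2 + 1) + (2 * (Q ^ 2 * N) + 1) * (k * 2 + 1))) ≤ nn) :
    ∃ (K m : ℕ) (G : SimpleGraph (Fin (K * 2))) (ed : Fin m → Fin (K * 2) × Fin (K * 2)),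
      5 * N ≤ 3 * K ∧ K ≤ 2 * N ∧ m ≤ 2 * (Q ^ 2 * N) ∧
      ((∀ x y, G.Adj x y ↔ ∃ i, ed i = (x, y) ∨ ed i = (y, x)) ∧
        ∀ i j, (ed i = ed j ∨ ed i = (ed j).swap) → i = j) ∧
      (∀ S : Finset (Fin (K * 2)), S.Nonempty → S.card ≤ K →
        Q ^ 2 * S.card ≤ 16 *
          (univ.filter (fun i => ¬ ((ed i).1 ∈ S ↔ (ed i).2 ∈ S))).card) ∧
      ∀ (t : ℕ), 4 * mb ≤ t →
      ∀ (F : Type) [Field F] (Mn : Finset (SVar (K * 2) m K t →₀ ℕ)),
        Derives {p | SetAx F ed K t p} (Mn : Set (SVar (K * 2) m K t →₀ ℕ)) 1 →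
          (∃ x ∈ Mn, 4 * e < x.degree) ∧ Real.exp (4 * (e : ℝ) ^ 2 / (nn : ℝ)) ≤ Mn.card := by
  classical
  have hP : Fintype.card (Fin k × Bool) = k * 2 := by simp
  obtain ⟨τ, hexp, hcut, hrep⟩ := exists_good_sc (N := N) (m := mb) (k := k) (s := s)
    (Q := Q) (μ := μ) (γ := γ) hN hm hγ0 hγ1 (by rw [hP]; exact hγ)
    (by rw [hP]; exact hs) hM hQ hNQ
  have hQ0 : 0 < Q := by omega
  obtain ⟨Bst, hBst, hprune⟩ := prune (Q := Q) hQ0 hN (E0 τ) (flip_E0 τ) (by
    intro SL SR h1 h2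
    have h3 := hcut SL SR h1 h2
    have h4 := sum_Xcut_le τ SL SR
    have h5 : 960 * N * Q ≤ Q ^ 2 * (SL.card + SR.card) := by
      have h6 : 960 * N * Q = 480 * Q * (2 * N) := by ring
      rw [h6]
      refine (Nat.mul_le_mul_left _ h2).trans ?_
      have h7 : 480 * Q * (3 * (SL.card + SR.card)) = 1440 * (Q * (SL.card + SR.card)) := by ring
      have h8 : Q ^ 2 * (SL.card + SR.card) = Q * (Q * (SL.card + SR.card)) := by ring
      rw [h7, h8]
      exact Nat.mul_le_mul_right _ hQ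
    have h9 : 3 * Q ^ 2 * (SL.card + SR.card) = 3 * (Q ^ 2 * (SL.card + SR.card)) := by ring
    rw [h9] at h3
    have h10 : 60 * N * Q * 16 = 960 * N * Q := by ring
    omega)
  set E := (E0 τ).filter (fun e => Sum.inl e.1.1 ∉ Bst ∧ Sum.inr e.2.1 ∉ Bst) with hE
  obtain ⟨f, hinj, hmem, hmono⟩ := exists_enum E (key τ E)
  obtain ⟨K, hKdef⟩ : ∃ K, K = (Bstᶜ).card := ⟨_, rfl⟩
  have hKB : K + Bst.card = 2 * N := by
    have h1 := Finset.card_add_card_compl Bst
    rw [Fintype.card_sum, Fintype.card_fin] at h1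
    omega
  let v0 : Fin K → Fin N ⊕ Fin N := fun i => ((Bstᶜ).equivFin.symm (Fin.cast hKdef i) : Fin N ⊕ Fin N)
  have hv : Function.Injective v0 := by
    intro i j h
    have h1 := (Bstᶜ).equivFin.symm.injective (Subtype.ext h)
    exact Fin.ext (by simpa using congrArg Fin.val h1)
  have hvB : ∀ i, v0 i ∉ Bst := by
    intro i
    have := ((Bstᶜ).equivFin.symm (Fin.cast hKdef i)).2
    exact mem_compl.1 this
  have hvs : ∀ v, v ∉ Bst → ∃ i, v0 i = v := by
    intro v hvB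
    refine ⟨Fin.cast hKdef.symm ((Bstᶜ).equivFin ⟨v, mem_compl.2 hvB⟩), ?_⟩
    simp [v0]
  have hfE : ∀ l, f l ∈ E := fun l => (hmem _).2 ⟨l, rfl⟩
  have hex : ∀ l : Fin E.card, ∃ p : Fin (K * 2) × Fin (K * 2),
      vn v0 p.1 = (Sum.inl (f l).1.1, (f l).1.2) ∧
      vn v0 p.2 = (Sum.inr (f l).2.1, (f l).2.2) := by
    intro l
    have h1 := hfE l
    rw [hE, mem_filter] at h1
    obtain ⟨i, hi⟩ := hvs _ h1.2.1
    obtain ⟨j, hj⟩ := hvs _ h1.2.2
    obtain ⟨a, ha⟩ := exists_vn v0 i (f l).1.2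
    obtain ⟨b, hb⟩ := exists_vn v0 j (f l).2.2
    exact ⟨(a, b), by rw [ha, hi], by rw [hb, hj]⟩
  choose ed hed using hex
  have hed1 : ∀ l, vn v0 (ed l).1 = (Sum.inl (f l).1.1, (f l).1.2) := fun l => (hed l).1
  have hed2 : ∀ l, vn v0 (ed l).2 = (Sum.inr (f l).2.1, (f l).2.2) := fun l => (hed l).2
  have hne : ∀ i j, (ed i).1 ≠ (ed j).2 := by
    intro i j h
    have h1 := hed1 i
    rw [h, hed2 j] at h1
    simp at h1
  have hEsub : E ⊆ E0 τ := Finset.filter_subset _ _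
  have hsd : E \ E0 τ = ∅ := Finset.sdiff_eq_empty_iff_subset.2 hEsub
  have hEc : E.card ≤ 2 * (Q ^ 2 * N) := by
    refine (Finset.card_le_card hEsub).trans (Finset.card_image_le.trans ?_)
    rw [Finset.card_univ, Fintype.card_prod, Fintype.card_prod, Fintype.card_fin,
      Fintype.card_fin, Fintype.card_fin, hM]
    omega
  refine ⟨K, E.card, gphE ed (fun i => hne i i), ed, by omega, by omega, hEc, ⟨?_, ?_⟩, ?_, ?_⟩
  · intro x y; rfl
  · intro i j h
    rcases h with h | h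
    · apply hinj
      have h1 := hed1 i
      have h2 := hed2 i
      rw [h, hed1 j] at h1
      rw [h, hed2 j] at h2
      simp only [Prod.mk.injEq, Sum.inl.injEq] at h1
      simp only [Prod.mk.injEq, Sum.inr.injEq] at h2
      exact (Prod.ext (Prod.ext h1.1 h1.2) (Prod.ext h2.1 h2.2)).symm
    · exfalso
      exact hne i j (by rw [h]; rfl)
  · intro S hS hSK
    have h1 := card_pts hv S
    have h2 := hprune (lpt v0 S) (rpt v0 S) (by rw [h1]; exact hS.card_pos) (by omega)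
      (by
        intro x hx
        simp only [lpt, mem_filter, mem_univ, true_and] at hx
        obtain ⟨l, _, hl⟩ := hx
        have h3 : (vn v0 l).1 = Sum.inl x.1 := by rw [hl]
        rw [← h3]
        exact hvB _)
      (by
        intro x hx
        simp only [rpt, mem_filter, mem_univ, true_and] at hx
        obtain ⟨l, _, hl⟩ := hx
        have h3 : (vn v0 l).1 = Sum.inr x.1 := by rw [hl]
        rw [← h3]
        exact hvB _)
    rw [h1] at h2
    refine h2.trans (Nat.mul_le_mul_left _ (le_of_eq ?_))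
    unfold cutE
    rw [← Finset.card_image_of_injective _ hinj]
    congr 1
    ext e
    simp only [mem_image, mem_filter, mem_univ, true_and]
    have g1 : ∀ l, (f l).1 ∈ lpt v0 S ↔ (ed l).1 ∈ S := by
      intro l
      simp only [lpt, mem_filter, mem_univ, true_and]
      constructor
      · rintro ⟨l', hl', h⟩
        have h4 : vn v0 l' = vn v0 (ed l).1 := by rw [hed1, h]
        rw [← vn_inj hv h4]
        exact hl'
      · intro h
        exact ⟨_, h, hed1 l⟩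
    have g2 : ∀ l, (f l).2 ∈ rpt v0 S ↔ (ed l).2 ∈ S := by
      intro l
      simp only [rpt, mem_filter, mem_univ, true_and]
      constructor
      · rintro ⟨l', hl', h⟩
        have h4 : vn v0 l' = vn v0 (ed l).2 := by rw [hed2, h]
        rw [← vn_inj hv h4]
        exact hl'
      · intro h
        exact ⟨_, h, hed2 l⟩
    constructor
    · rintro ⟨he, h⟩
      obtain ⟨i, rfl⟩ := (hmem e).1 he
      rw [g1, g2] at h
      exact ⟨i, h, rfl⟩
    · rintro ⟨i, hi, rfl⟩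
      refine ⟨hfE i, ?_⟩
      rw [g1, g2]
      exact hi
  · intro t ht F _ Mn hMn
    have hE' := expd_ug hexp
    have hP3 : 3 ≤ Fintype.card (Fin k × Bool) := by rw [hP]; omega
    have hes' : 4 * Fintype.card (Fin k × Bool) ≤ s := by
      rw [hP]
      refine le_trans ?_ hes
      have : 0 ≤ 4 * e * (2 * k) := Nat.zero_le _
      omega
    have hn0 : 0 < nn := by omega
    have hkl : kap τ E f E.card = mb := by rw [kap_last, hsd]; simp
    have hcard : 2 * (K * 2 + ((K * 2 + 1) + (E.card + 1) * (k * 2 + 1))) ≤ nn := by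
      refine le_trans ?_ hnn
      have h1 : (E.card + 1) * (k * 2 + 1) ≤ (2 * (Q ^ 2 * N) + 1) * (k * 2 + 1) :=
        Nat.mul_le_mul_right _ (by omega)
      omega
    exact lower (K := F) (0 : Fin 2)
      (dep_ohE (R := 4) (s := K) (t := t) (locE_sc hmem hed1 hed2))
      (fun x => card_depE (fun i => (card_dmL v0 i).trans (by omega))
        (fun b => card_dkL (by omega) b) x)
      (local_U (ug τ) id) (flexible_U (ug τ) id (0 : Fin 2)) hE'
      (actE (K * 2) E.card K t (kap τ E f) 4 (k * 2) (fun i => i / 2))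
      (rhoE (K * 2) E.card K t (kap τ E f) 4 (fun i => i / 2))
      (rho_ohE (fun y i hi => cb_memL_bounds v0 (by norm_num) y i hi)
        (fun i y => by
          rw [cwE_eq hed1 hed2]
          exact cwE_leE hinj hmem (by omega) (by omega) i y))
      hes (card_actE.trans hcard) hen hn0
      (Ax := {p | SetAx F ed K t p})
      (fun p hp => (setAx_degree hp).trans (by omega))
      (fun p hp => Rd_setAx (0 : Fin 2) (locE_sc hmem hed1 hed2) (local_U (ug τ) id)
        (flexible_U (ug τ) id (0 : Fin 2)) hE' hP3 hes' (kap_mono hmem hmono)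
        (kap_lt hmem) (by rw [hkl]; exact ht) (fun y => cb_memL_total v0 (by norm_num) y)
        (fun b => by unfold dkL; rw [dif_pos b.2])
        (fun b y hsat => satE_sc hinj hmem hed1 hed2 b y hsat)
        (fun i hi => by
          have := kap_lt (τ := τ) hmem i
          omega) hp) Mn hMn

end Pool.Agent.W939.SC
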