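import Mathlib
import Pool.Agent.W939.SC.Core

/-!
The lower bound for sparsest cut.
-/

set_option linter.unusedSectionVars false
set_option linter.unusedSimpArgs false
set_option linter.unusedVariables false

namespace Pool.Agent.W939.SC

open Finset Pool.Agent.W939.PC Pool.Agent.W939.SSE

/-- The constants. -/
theorem consts_sc {C : ℕ} {X : ℝ} (hC : 1 ≤ C) (hX : X = Real.exp C) :
    ∃ γ β : ℝ, 0 < γ ∧ γ ≤ 1 ∧
      γ * (4 * (((62400 * C : ℕ) : ℝ) * ((39 * C * 2 : ℕ) : ℝ) *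
        (((39 * C * 2 : ℕ) : ℝ) + 1) * Real.exp 1 ^ (39 * C * 2 + 1))) ≤ 1 ∧
      β = γ ^ 4 / (64 * ((39 * C * 2 : ℕ) : ℝ) ^ 2) ∧ 0 < β ∧ β ≤ 1 ∧ 1 ≤ X ∧
      2 / β ≤ X ^ 442 ∧ (((1560 * C) ^ 3 : ℕ) : ℝ) ≤ X ^ 27 ∧
      36 * (((1560 * C) ^ 2 * (39 * C) : ℕ) : ℝ) * (β⁻¹) ^ 2 ≤ X ^ 909 := by
  have hC' : (1 : ℝ) ≤ C := by exact_mod_cast hC
  have hXC : (C : ℝ) + 1 ≤ X := by rw [hX]; exact Real.add_one_le_exp _
  have hX27 : (2.7 : ℝ) ≤ X := by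
    have h2 : (2.7182818283 : ℝ) < Real.exp 1 := Real.exp_one_gt_d9
    have h3 : Real.exp 1 ≤ X := by rw [hX]; exact Real.exp_le_exp.2 hC'
    linarith
  have hX1 : 1 ≤ X := by linarith
  have hX0 : 0 < X := by linarith
  have hCX : (C : ℝ) ≤ X := by linarith
  have p2 : (4 : ℝ) ≤ X ^ 2 := by
    have := pow_le_pow_left₀ (by norm_num) hX27 2
    norm_num at this; linarith
  have p4 : (39 : ℝ) ≤ X ^ 4 := by
    have := pow_le_pow_left₀ (by norm_num) hX27 4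
    norm_num at this; linarith
  have p5 : (79 : ℝ) ≤ X ^ 5 := by
    have := pow_le_pow_left₀ (by norm_num) hX27 5
    norm_num at this; linarith
  have p8 : (1560 : ℝ) ≤ X ^ 8 := by
    have := pow_le_pow_left₀ (by norm_num) hX27 8
    norm_num at this; linarith
  have p12 : (62400 : ℝ) ≤ X ^ 12 := by
    have := pow_le_pow_left₀ (by norm_num) hX27 12
    norm_num at this; linarith
  have hk : ((39 * C : ℕ) : ℝ) ≤ X ^ 5 := by
    push_cast
    have : (39 : ℝ) * C ≤ X ^ 4 * X := mul_le_mul p4 hCX (by linarith) (by positivity)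
    refine this.trans (le_of_eq ?_)
    ring
  have hμX : ((62400 * C : ℕ) : ℝ) ≤ X ^ 13 := by
    push_cast
    have : (62400 : ℝ) * C ≤ X ^ 12 * X := mul_le_mul p12 hCX (by linarith) (by positivity)
    refine this.trans (le_of_eq ?_)
    ring
  have hμ1 : (1 : ℝ) ≤ ((62400 * C : ℕ) : ℝ) := by push_cast; linarith
  set r : ℝ := ((39 * C * 2 : ℕ) : ℝ) with hr
  have hr' : r = 78 * C := by rw [hr]; push_cast; ring
  have hr4 : 4 ≤ r := by linarith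
  have hr0 : 0 < r := by linarith
  have hrX1 : r + 1 ≤ X ^ 6 := by
    have h1 : r + 1 ≤ 79 * C := by linarith
    have h2 : (79 : ℝ) * C ≤ X ^ 5 * X := mul_le_mul p5 hCX (by linarith) (by positivity)
    refine h1.trans (h2.trans (le_of_eq ?_))
    ring
  have hrX : r ≤ X ^ 6 := by linarith
  have hexpX : Real.exp 1 ^ (39 * C * 2 + 1) ≤ X ^ 79 := by
    rw [hX, ← Real.exp_nat_mul, ← Real.exp_nat_mul]
    apply Real.exp_le_exp.2
    push_cast
    linarith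
  have hexp1 : (1 : ℝ) ≤ Real.exp 1 ^ (39 * C * 2 + 1) := by
    apply one_le_pow₀
    have := Real.add_one_le_exp (1 : ℝ); linarith
  set W : ℝ := 4 * (((62400 * C : ℕ) : ℝ) * r * (r + 1) * Real.exp 1 ^ (39 * C * 2 + 1)) with hW
  have hW1 : 1 ≤ W := by
    have g1 : (1 : ℝ) ≤ ((62400 * C : ℕ) : ℝ) * r :=
      one_le_mul_of_one_le_of_one_le hμ1 (by linarith)
    have g2 : (1 : ℝ) ≤ ((62400 * C : ℕ) : ℝ) * r * (r + 1) :=
      one_le_mul_of_one_le_of_one_le g1 (by linarith)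
    have g3 := one_le_mul_of_one_le_of_one_le g2 hexp1
    rw [hW]; linarith
  have hWX : W ≤ X ^ 106 := by
    have g1 : ((62400 * C : ℕ) : ℝ) * r ≤ X ^ 13 * X ^ 6 :=
      mul_le_mul hμX hrX (by linarith) (by positivity)
    have g2 : ((62400 * C : ℕ) : ℝ) * r * (r + 1) ≤ X ^ 13 * X ^ 6 * X ^ 6 :=
      mul_le_mul g1 hrX1 (by linarith) (by positivity)
    have g3 : ((62400 * C : ℕ) : ℝ) * r * (r + 1) * Real.exp 1 ^ (39 * C * 2 + 1) ≤
        X ^ 13 * X ^ 6 * X ^ 6 * X ^ 79 := mul_le_mul g2 hexpX (by positivity) (by positivity)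
    have g4 : W ≤ X ^ 2 * (X ^ 13 * X ^ 6 * X ^ 6 * X ^ 79) := by
      rw [hW]
      exact mul_le_mul p2 g3 (by positivity) (by positivity)
    refine g4.trans (le_of_eq ?_)
    ring
  have hW0 : 0 < W := by linarith
  set γ : ℝ := W⁻¹ with hγdef
  have hγ0 : 0 < γ := inv_pos.2 hW0
  have hγ1 : γ ≤ 1 := inv_le_one_of_one_le₀ hW1
  set β : ℝ := γ ^ 4 / (64 * r ^ 2) with hβ
  have hβ0 : 0 < β := by positivity
  have hβ1 : β ≤ 1 := by
    rw [hβ, div_le_one (by positivity)]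
    have g1 : γ ^ 4 ≤ 1 := pow_le_one₀ hγ0.le hγ1
    have g2 : 1 ≤ r ^ 2 := one_le_pow₀ (by linarith)
    linarith
  have hβinv : β⁻¹ ≤ X ^ 441 := by
    have g1 : β⁻¹ = 64 * r ^ 2 * W ^ 4 := by
      rw [hβ, hγdef]
      field_simp
    rw [g1]
    have g3 : 64 * r ^ 2 ≤ X ^ 5 * (X ^ 6) ^ 2 :=
      mul_le_mul (by linarith) (pow_le_pow_left₀ hr0.le hrX 2) (by positivity) (by positivity)
    have g4 : 64 * r ^ 2 * W ^ 4 ≤ X ^ 5 * (X ^ 6) ^ 2 * (X ^ 106) ^ 4 :=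
      mul_le_mul g3 (pow_le_pow_left₀ hW0.le hWX 4) (by positivity) (by positivity)
    refine g4.trans (le_of_eq ?_)
    ring
  have hQX : ((1560 * C : ℕ) : ℝ) ≤ X ^ 9 := by
    push_cast
    have : (1560 : ℝ) * C ≤ X ^ 8 * X := mul_le_mul p8 hCX (by linarith) (by positivity)
    refine this.trans (le_of_eq ?_)
    ring
  refine ⟨γ, β, hγ0, hγ1, ?_, hβ, hβ0, hβ1, hX1, ?_, ?_, ?_⟩
  · rw [hγdef]; exact (inv_mul_cancel₀ hW0.ne').le
  · have g1 : 2 / β = 2 * β⁻¹ := by ring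
    have g2 : 2 * β⁻¹ ≤ X * X ^ 441 :=
      mul_le_mul (by linarith) hβinv (by positivity) (by positivity)
    rw [g1]
    refine g2.trans (le_of_eq ?_)
    ring
  · have g1 : (((1560 * C) ^ 3 : ℕ) : ℝ) = ((1560 * C : ℕ) : ℝ) ^ 3 := by push_cast; ring
    rw [g1]
    have g2 : ((1560 * C : ℕ) : ℝ) ^ 3 ≤ (X ^ 9) ^ 3 := pow_le_pow_left₀ (by positivity) hQX 3
    refine g2.trans (le_of_eq ?_)
    ring
  · have g1 : (((1560 * C) ^ 2 * (39 * C) : ℕ) : ℝ) =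
        ((1560 * C : ℕ) : ℝ) ^ 2 * ((39 * C : ℕ) : ℝ) := by push_cast; ring
    rw [g1]
    have g2 : ((1560 * C : ℕ) : ℝ) ^ 2 * ((39 * C : ℕ) : ℝ) ≤ (X ^ 9) ^ 2 * X ^ 5 :=
      mul_le_mul (pow_le_pow_left₀ (by positivity) hQX 2) hk (by positivity) (by positivity)
    have g4 : 36 * (((1560 * C : ℕ) : ℝ) ^ 2 * ((39 * C : ℕ) : ℝ)) ≤
        X ^ 4 * ((X ^ 9) ^ 2 * X ^ 5) :=
      mul_le_mul (by linarith) g2 (by positivity) (by positivity)
    have g5 : 36 * (((1560 * C : ℕ) : ℝ) ^ 2 * ((39 * C : ℕ) : ℝ)) * (β⁻¹) ^ 2 ≤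
        X ^ 4 * ((X ^ 9) ^ 2 * X ^ 5) * (X ^ 441) ^ 2 :=
      mul_le_mul g4 (pow_le_pow_left₀ (by positivity) hβinv 2) (by positivity) (by positivity)
    refine g5.trans (le_of_eq ?_)
    ring

theorem main_sc {C : ℕ} (hC : 1 ≤ C) {N : ℕ} (hNX : Real.exp (C : ℝ) ^ 3000 ≤ (N : ℝ)) :
    ∃ (K m b : ℕ) (G : SimpleGraph (Fin (K * 2))) (ed : Fin m → Fin (K * 2) × Fin (K * 2)),
      N ≤ K ∧ K ≤ 2 * N ∧ 1 ≤ b ∧ m ≤ (3000 * C) ^ 2 * K ∧
      ((∀ x y, G.Adj x y ↔ ∃ i, ed i = (x, y) ∨ ed i = (y, x)) ∧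
        ∀ i j, (ed i = ed j ∨ ed i = (ed j).swap) → i = j) ∧
      (∀ S : Finset (Fin (K * 2)), S.Nonempty → S.card ≤ K →
        b * S.card ≤ (univ.filter (fun i => ¬ ((ed i).1 ∈ S ↔ (ed i).2 ∈ S))).card) ∧
      ∀ t : ℕ, b * K ≤ C * t →
      ∀ (F : Type) [Field F] (Mn : Finset (SVar (K * 2) m K t →₀ ℕ)),
        Derives {p | SetAx F ed K t p} (Mn : Set (SVar (K * 2) m K t →₀ ℕ)) 1 →
          (∃ x ∈ Mn, ((K * 2 : ℕ) : ℝ) / Real.exp (C : ℝ) ^ 3000 ≤ x.degree) ∧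
            (2 : ℝ) ^ (((K * 2 : ℕ) : ℝ) / Real.exp (C : ℝ) ^ 3000) ≤ Mn.card := by
  obtain ⟨X, hX⟩ : ∃ X : ℝ, X = Real.exp C := ⟨_, rfl⟩
  rw [← hX] at hNX ⊢
  obtain ⟨γ, β, hγ0, hγ1, hγ, hβ, hβ0, hβ1, hX1, hX442, hQX, hX909⟩ := consts_sc hC hX
  have hX0 : 0 < X := by linarith
  have hN442 : X ^ 442 ≤ (N : ℝ) := (pow_le_pow_right₀ hX1 (by norm_num)).trans hNX
  have hN1 : (1 : ℝ) ≤ N := (one_le_pow₀ hX1).trans hN442
  have hN : 0 < N := by
    have : (0 : ℝ) < N := by linarith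
    exact_mod_cast this
  have hN0 : (0 : ℝ) < N := by linarith
  have hNQ : (1560 * C) ^ 3 ≤ N := by
    have : (((1560 * C) ^ 3 : ℕ) : ℝ) ≤ N :=
      hQX.trans ((pow_le_pow_right₀ hX1 (by norm_num)).trans hN442)
    exact_mod_cast this
  set r : ℝ := ((39 * C * 2 : ℕ) : ℝ) with hr
  have hr1 : 1 ≤ r := by
    rw [hr]
    have : 1 ≤ 39 * C * 2 := by omega
    exact_mod_cast this
  have hr0 : 0 < r := by linarith
  obtain ⟨s, hsdef⟩ : ∃ s : ℕ, s = ⌊γ ^ 4 * N / r⌋₊ := ⟨_, rfl⟩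
  have hs1 : (s : ℝ) ≤ γ ^ 4 * N / r := by rw [hsdef]; exact Nat.floor_le (by positivity)
  have hs2 : γ ^ 4 * N / r < s + 1 := by rw [hsdef]; exact Nat.lt_floor_add_one _
  obtain ⟨e, hedef⟩ : ∃ e : ℕ, e = s / (32 * (39 * C * 2)) := ⟨_, rfl⟩
  have he1 : 32 * (39 * C * 2) * e ≤ s := by rw [hedef]; exact Nat.mul_div_le _ _
  have he2 : s + 1 ≤ 32 * (39 * C * 2) * (e + 1) := by
    have := Nat.lt_mul_div_succ s (show 0 < 32 * (39 * C * 2) by omega)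
    rw [← hedef] at this
    exact this
  have hβN : 2 ≤ β * N := by
    have h1 : 2 / β ≤ N := hX442.trans hN442
    rw [div_le_iff₀ hβ0] at h1
    linarith
  have heβ : β * N ≤ e := by
    have h1 : ((s + 1 : ℕ) : ℝ) ≤ ((32 * (39 * C * 2) * (e + 1) : ℕ) : ℝ) := by exact_mod_cast he2
    have h2 : ((32 * (39 * C * 2) * (e + 1) : ℕ) : ℝ) = 32 * r * (e + 1) := by
      rw [hr]; push_cast; ring
    rw [h2] at h1
    push_cast at h1
    have h3 : γ ^ 4 * N / r < 32 * r * (e + 1) := by linarith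
    have h4 : γ ^ 4 * N / r = 64 * r * (β * N) := by
      rw [hβ]; field_simp
    rw [h4] at h3
    have h5 : 32 * r * (2 * (β * N)) < 32 * r * (e + 1) := by linarith
    have h6 := lt_of_mul_lt_mul_left h5 (by positivity)
    linarith
  have he2' : 2 ≤ e := by
    have : (2 : ℝ) ≤ e := hβN.trans heβ
    exact_mod_cast this
  have hsN : s ≤ N := by
    have h1 : γ ^ 4 * N / r ≤ N := by
      rw [div_le_iff₀ hr0]
      have h2 : γ ^ 4 ≤ 1 := pow_le_one₀ hγ0.le hγ1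
      have h3 : γ ^ 4 * N ≤ 1 * N := mul_le_mul_of_nonneg_right h2 hN0.le
      have h4 : (N : ℝ) * 1 ≤ N * r := mul_le_mul_of_nonneg_left hr1 hN0.le
      linarith
    exact_mod_cast hs1.trans h1
  have heN : e ≤ N := by
    have : e ≤ 32 * (39 * C * 2) * e := Nat.le_mul_of_pos_left _ (by omega)
    omega
  obtain ⟨Q, hQdef⟩ : ∃ Q : ℕ, Q = 1560 * C := ⟨_, rfl⟩
  obtain ⟨k, hkdef⟩ : ∃ k : ℕ, k = 39 * C := ⟨_, rfl⟩
  have hk1 : 1 ≤ k := by omega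
  have hQ1 : 1 ≤ Q := by omega
  have hQ21 : 1 ≤ Q ^ 2 := Nat.one_le_pow _ _ hQ1
  obtain ⟨nn, hnndef⟩ : ∃ nn : ℕ, nn = 36 * (Q ^ 2 * k) * N := ⟨_, rfl⟩
  have hBN : N ≤ Q ^ 2 * k * N := by
    apply Nat.le_mul_of_pos_left
    positivity
  have hnn' : nn = 36 * (Q ^ 2 * k * N) := by rw [hnndef]; ring
  have hnn : 2 * ((2 * N) * 2 + (((2 * N) * 2 + 1) + (2 * (Q ^ 2 * N) + 1) * (k * 2 + 1))) ≤
      nn := by
    have g2 : 2 * (Q ^ 2 * N) + 1 ≤ 3 * (Q ^ 2 * N) := by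
      have : 1 ≤ Q ^ 2 * N := Nat.mul_pos hQ21 hN
      omega
    have g3 : k * 2 + 1 ≤ 3 * k := by omega
    have g4 : (2 * (Q ^ 2 * N) + 1) * (k * 2 + 1) ≤ 9 * (Q ^ 2 * k * N) := by
      refine (Nat.mul_le_mul g2 g3).trans (le_of_eq ?_)
      ring
    rw [hnn']
    omega
  have hen : 2 * e ≤ nn := by rw [hnn']; omega
  have hes : 4 * (4 * e * (2 * k) + 2 * k) ≤ s := by
    refine le_trans ?_ he1
    have h1 : 2 * k * 1 ≤ 2 * k * e := Nat.mul_le_mul_left _ (by omega)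
    have h2 : 4 * e * (2 * k) = 4 * (2 * k * e) := by ring
    have h3 : 32 * (39 * C * 2) * e = 32 * (2 * k * e) := by rw [hkdef]; ring
    rw [h2, h3]
    omega
  have hM : (62400 * C * N) * k = Q ^ 2 * N := by rw [hQdef, hkdef]; ring
  have hsr : ((k * 2 * s : ℕ) : ℝ) ≤ γ ^ 4 * N := by
    have h1 : ((k * 2 * s : ℕ) : ℝ) = s * r := by rw [hr, hkdef]; push_cast; ring
    rw [h1]
    rw [le_div_iff₀ hr0] at hs1
    exact hs1
  obtain ⟨K, m, G, ed, hK1, hK2, hm, hlist, hexp, hpcr⟩ := core_sc (N := N)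
    (mb := 62400 * C * N) (k := k) (Q := Q) (s := s) (e := e) (μ := 62400 * C) (nn := nn)
    (γ := γ) hN (by omega) le_rfl hγ0 hγ1 (by rw [hkdef]; exact hγ) hsr hM (by omega)
    (by rw [hQdef]; exact hNQ) he2' hes hen hnn
  refine ⟨K, m, 152100 * C ^ 2, G, ed, by omega, hK2, ?_, ?_, hlist, ?_, ?_⟩
  · have : 1 ≤ C ^ 2 := Nat.one_le_pow _ _ hC
    omega
  · refine hm.trans ?_
    have h1 : 2 * (Q ^ 2 * N) = 4867200 * (C ^ 2 * N) := by rw [hQdef]; ring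
    have h2 : (3000 * C) ^ 2 * K = 9000000 * (C ^ 2 * K) := by ring
    rw [h1, h2]
    have h3 : C ^ 2 * N ≤ C ^ 2 * K := Nat.mul_le_mul_left _ (by omega)
    omega
  · intro S hS hSK
    have h1 := hexp S hS hSK
    have h2 : Q ^ 2 * S.card = 16 * (152100 * C ^ 2 * S.card) := by rw [hQdef]; ring
    rw [h2] at h1
    omega
  · intro t ht F _ Mn hMn
    have ht' : 4 * (62400 * C * N) ≤ t := by
      have h1 : 152100 * C ^ 2 * (5 * N) ≤ 152100 * C ^ 2 * (3 * K) := Nat.mul_le_mul_left _ hK1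
      have h2 : 152100 * C ^ 2 * (3 * K) = 3 * (152100 * C ^ 2 * K) := by ring
      have h3 : 152100 * C ^ 2 * (5 * N) = 3 * (C * (253500 * C * N)) := by ring
      have h4 : C * (253500 * C * N) ≤ C * t := by omega
      have h5 : 253500 * C * N ≤ t := Nat.le_of_mul_le_mul_left h4 (by omega)
      have h6 : 253500 * C * N = 253500 * (C * N) := by ring
      have h7 : 4 * (62400 * C * N) = 249600 * (C * N) := by ring
      rw [h6] at h5
      rw [h7]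
      omega
    obtain ⟨⟨x, hx, hx4⟩, hsz⟩ := hpcr t ht' F Mn hMn
    obtain ⟨A, hA⟩ : ∃ A : ℕ, A = Q ^ 2 * k := ⟨_, rfl⟩
    have hA1 : 1 ≤ A := by
      rw [hA]; exact Nat.mul_pos hQ21 (by omega)
    have hA1' : (1 : ℝ) ≤ A := by exact_mod_cast hA1
    have hA0 : (0 : ℝ) < A := by linarith
    have hP : 36 * (A : ℝ) * (β⁻¹) ^ 2 ≤ X ^ 3000 := by
      have h1 : (((1560 * C) ^ 2 * (39 * C) : ℕ) : ℝ) = A := by
        rw [hA, hQdef, hkdef]
      rw [h1] at hX909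
      exact hX909.trans (pow_le_pow_right₀ hX1 (by norm_num))
    have hP0 : 0 < 36 * (A : ℝ) * (β⁻¹) ^ 2 := by positivity
    have hK2' : ((K * 2 : ℕ) : ℝ) ≤ 4 * N := by
      have : K * 2 ≤ 4 * N := by omega
      exact_mod_cast this
    have hkey : ((K * 2 : ℕ) : ℝ) / X ^ 3000 ≤ N * β ^ 2 / (9 * A) := by
      have h1 : ((K * 2 : ℕ) : ℝ) / X ^ 3000 ≤ ((K * 2 : ℕ) : ℝ) / (36 * A * (β⁻¹) ^ 2) :=
        div_le_div_of_nonneg_left (Nat.cast_nonneg _) hP0 hP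
      have h2 : ((K * 2 : ℕ) : ℝ) / (36 * A * (β⁻¹) ^ 2) ≤ 4 * N / (36 * A * (β⁻¹) ^ 2) :=
        div_le_div_of_nonneg_right hK2' hP0.le
      refine h1.trans (h2.trans (le_of_eq ?_))
      field_simp
      ring
    constructor
    · refine ⟨x, hx, ?_⟩
      have h1 : N * β ^ 2 / (9 * A) ≤ 4 * (β * N) := by
        rw [div_le_iff₀ (by positivity)]
        have h2 : β ^ 2 ≤ β := by
          have : β ^ 2 = β * β := by ring
          rw [this]
          exact mul_le_of_le_one_left hβ0.le hβ1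
        have h3 : (N : ℝ) * β ^ 2 ≤ N * β := mul_le_mul_of_nonneg_left h2 hN0.le
        have h4 : 0 < β * (N : ℝ) := by positivity
        have h5 : 4 * (β * N) * 9 ≤ 4 * (β * N) * (9 * A) :=
          mul_le_mul_of_nonneg_left (by linarith) (by positivity)
        have h6 : (N : ℝ) * β = β * N := by ring
        have h7 : 4 * (β * N) * 9 = 36 * (β * N) := by ring
        linarith
      have h2 : (4 : ℝ) * e ≤ x.degree := by
        have : 4 * e ≤ x.degree := hx4.le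
        exact_mod_cast this
      linarith
    · refine le_trans ?_ hsz
      have hnn'' : (nn : ℝ) = 36 * A * N := by rw [hnndef, hA]; push_cast; ring
      have h1 : N * β ^ 2 / (9 * A) ≤ 4 * (e : ℝ) ^ 2 / nn := by
        rw [hnn'', div_le_div_iff₀ (by positivity) (by positivity)]
        have h2 : (β * N) ^ 2 ≤ (e : ℝ) ^ 2 := pow_le_pow_left₀ (by positivity) heβ 2
        have h3 : N * β ^ 2 * (36 * A * N) = 36 * A * (β * N) ^ 2 := by ring
        have h4 : 4 * (e : ℝ) ^ 2 * (9 * A) = 36 * A * (e : ℝ) ^ 2 := by ring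
        rw [h3, h4]
        exact mul_le_mul_of_nonneg_left h2 (by positivity)
      have h2 : (2 : ℝ) ≤ Real.exp 1 := by
        have := Real.add_one_le_exp (1 : ℝ); linarith
      have h0 : 0 ≤ ((K * 2 : ℕ) : ℝ) / X ^ 3000 := by positivity
      calc (2 : ℝ) ^ (((K * 2 : ℕ) : ℝ) / X ^ 3000)
          ≤ (Real.exp 1) ^ (((K * 2 : ℕ) : ℝ) / X ^ 3000) :=
            Real.rpow_le_rpow (by norm_num) h2 h0
        _ = Real.exp (((K * 2 : ℕ) : ℝ) / X ^ 3000) := by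
            rw [← Real.exp_mul, one_mul]
        _ ≤ Real.exp (4 * (e : ℝ) ^ 2 / nn) := Real.exp_le_exp.2 (hkey.trans h1)

end Pool.Agent.W939.SC
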